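import Pool.Agent.E8helper40.CC.Dom

/-!
# The cone conjecture as a statement on polyhedral covers
-/

set_option autoImplicit false
set_option linter.unusedSectionVars false

open scoped NNReal

namespace Pool.Agent.E8helper40.CC.Cones

variable {X : Cones}

theorem coe_cone {ρ : ℕ} (S : Set (Fin ρ → ℝ)) :
    cone S = (Submodule.span ℝ≥0 S : Set (Fin ρ → ℝ)) := rfl

/-- The nef cone as a submodule. -/
noncomputable def K (X : Cones) : Submodule ℝ≥0 (Fin X.ρ → ℝ) :=
  (Submodule.span ℝ≥0 X.amp).topologicalClosure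

theorem coe_K (X : Cones) : (X.K : Set (Fin X.ρ → ℝ)) = X.Nef :=
  Submodule.topologicalClosure_coe _

theorem mem_K {x : Fin X.ρ → ℝ} : x ∈ X.K ↔ x ∈ X.Nef := by
  rw [← coe_K]; rfl

/-- The effective cone as a submodule. -/
noncomputable def Ef (X : Cones) : Submodule ℝ≥0 (Fin X.ρ → ℝ) := Submodule.span ℝ≥0 X.eff

theorem mem_Ef {x : Fin X.ρ → ℝ} : x ∈ X.Ef ↔ x ∈ X.Eff := Iff.rfl

/-- The left action `φ ↦ (φ⁻¹)^*`. -/
noncomputable def act (hX : X.IsProjective) : X.Aut →* Module.End ℝ (Fin X.ρ → ℝ) where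
  toFun φ := X.pb φ⁻¹
  map_one' := LinearMap.ext fun x => by
    rw [inv_one, Module.End.one_apply]; exact hX.one x
  map_mul' φ ψ := LinearMap.ext fun x => by
    rw [mul_inv_rev, Module.End.mul_apply]; exact hX.mul _ _ x

theorem act_apply (hX : X.IsProjective) (φ : X.Aut) (x : Fin X.ρ → ℝ) :
    act hX φ x = X.pb φ⁻¹ x := rfl

theorem pb_eq (hX : X.IsProjective) (φ : X.Aut) (x : Fin X.ρ → ℝ) :
    X.pb φ x = act hX φ⁻¹ x := by rw [act_apply, inv_inv]

theorem map_cone {V W : Type*} [AddCommGroup V] [Module ℝ V] [AddCommGroup W] [Module ℝ W]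
    (f : V →ₗ[ℝ] W) {S : Set V} {T : Submodule ℝ≥0 W} (h : ∀ x ∈ S, f x ∈ T) {x : V}
    (hx : x ∈ Submodule.span ℝ≥0 S) : f x ∈ T := by
  induction hx using Submodule.span_induction with
  | mem v hv => exact h v hv
  | zero => rw [map_zero]; exact T.zero_mem
  | add x y _ _ hx hy => rw [map_add]; exact T.add_mem hx hy
  | smul c x _ hx =>
    rw [NNReal.smul_def, map_smul]
    exact smul_mem' _ c.2 hx

/-- Ample classes are in the interior of the ample cone. -/
theorem amp_interior (hX : X.IsProjective) {x : Fin X.ρ → ℝ} (hx : x ∈ X.amp) :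
    x ∈ interior (cone X.amp) := by
  classical
  have h1 : ∀ i : Fin X.ρ, ∃ n : ℕ, 0 < n ∧ (n : ℝ) • x + Pi.single i 1 ∈ X.amp := fun i =>
    hX.amp_open x hx _ (by simpa using IsInt.single i 1)
  have h2 : ∀ i : Fin X.ρ, ∃ n : ℕ, 0 < n ∧ (n : ℝ) • x + -Pi.single i 1 ∈ X.amp := fun i =>
    hX.amp_open x hx _ (IsInt.neg (by simpa using IsInt.single i 1))
  choose n hn hn' using h1
  choose m hm hm' using h2
  set C := Submodule.span ℝ≥0 X.amp with hC
  have hxC : x ∈ C := Submodule.subset_span hx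
  set N : ℝ := 1 + ∑ i, ((n i : ℝ) + m i) with hN
  have hsum : ∀ i, (n i : ℝ) + m i ≤ ∑ i, ((n i : ℝ) + m i) := fun i =>
    Finset.single_le_sum (f := fun i => ((n i : ℝ) + m i)) (fun i _ => by positivity)
      (Finset.mem_univ i)
  have hN0 : 0 < N := by
    have : 0 ≤ ∑ i, ((n i : ℝ) + m i) := Finset.sum_nonneg fun i _ => by positivity
    linarith
  have key : ∀ (i : Fin X.ρ) (t : ℝ), |t| ≤ 1 / N → x + t • (Pi.single i 1 : Fin X.ρ → ℝ) ∈ C := by
    intro i t ht
    rw [le_div_iff₀ hN0] at ht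
    rcases le_total 0 t with h0 | h0
    · rw [abs_of_nonneg h0] at ht
      have e : x + t • (Pi.single i 1 : Fin X.ρ → ℝ) =
          (1 - t * n i) • x + t • ((n i : ℝ) • x + Pi.single i 1) := by
        rw [smul_add, smul_smul, sub_smul, one_smul]; abel
      rw [e]
      refine C.add_mem (smul_mem' C ?_ hxC) (smul_mem' C h0 (Submodule.subset_span (hn' i)))
      have h3 : (n i : ℝ) ≤ N := by
        have := hsum i
        have : (0 : ℝ) ≤ m i := by positivity
        linarith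
      nlinarith
    · rw [abs_of_nonpos h0] at ht
      have e : x + t • (Pi.single i 1 : Fin X.ρ → ℝ) =
          (1 - (-t) * m i) • x + (-t) • ((m i : ℝ) • x + -Pi.single i 1) := by
        rw [smul_add, smul_smul, sub_smul, one_smul, smul_neg, neg_smul t, neg_neg]; abel
      rw [e]
      refine C.add_mem (smul_mem' C ?_ hxC) (smul_mem' C (by linarith)
        (Submodule.subset_span (hm' i)))
      have h3 : (m i : ℝ) ≤ N := by
        have := hsum i
        have : (0 : ℝ) ≤ n i := by positivity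
        linarith
      nlinarith
  rw [mem_interior_iff_mem_nhds, Metric.mem_nhds_iff]
  set R : ℝ := X.ρ + 1 with hR
  have hR0 : 0 < R := by positivity
  refine ⟨1 / N / R, by positivity, fun y hy => ?_⟩
  rw [Metric.mem_ball, dist_eq_norm] at hy
  have hyi : ∀ i, |y i - x i| < 1 / N / R := fun i =>
    (norm_le_pi_norm (y - x) i).trans_lt hy
  show y ∈ C
  have e : y = (1 / R) • x + ∑ i, (1 / R) • (x + (R * (y i - x i)) • (Pi.single i 1 : Fin X.ρ → ℝ)) := by
    funext j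
    rw [Pi.add_apply, Finset.sum_apply]
    simp only [Pi.smul_apply, Pi.add_apply, smul_eq_mul]
    have e1 : ∀ i, 1 / R * (x j + R * (y i - x i) * (Pi.single i (1 : ℝ) : Fin X.ρ → ℝ) j) =
        1 / R * x j + (if i = j then (y i - x i) else 0) := by
      intro i
      by_cases hij : i = j
      · subst hij
        rw [Pi.single_eq_same, if_pos rfl]
        field_simp
      · rw [Pi.single_eq_of_ne (Ne.symm hij), if_neg hij]
        ring
    rw [Finset.sum_congr rfl fun i _ => e1 i, Finset.sum_add_distrib, Finset.sum_const,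
      Finset.card_univ, Fintype.card_fin, nsmul_eq_mul, Finset.sum_ite_eq' Finset.univ j]
    simp only [Finset.mem_univ, if_true]
    have : 1 / R * x j + (↑X.ρ * (1 / R * x j)) = x j := by
      rw [hR]; field_simp; ring
    linarith
  rw [e]
  refine C.add_mem (smul_mem' C (by positivity) hxC) (Submodule.sum_mem _ fun i _ => smul_mem' C
    (by positivity) (key i _ ?_))
  rw [abs_mul, abs_of_pos hR0]
  have := hyi i
  rw [lt_div_iff₀ hR0] at this
  linarith

theorem mem_Kp_of {ι : Type} {K : Submodule ℝ≥0 (ι → ℝ)} {v : ι → ℝ} (h : v ∈ K) (h' : IsInt v) :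
    v ∈ Kp K := Submodule.subset_span ⟨h, h'⟩

theorem convex_span {V : Type*} [AddCommGroup V] [Module ℝ V] (K : Submodule ℝ≥0 V) :
    Convex ℝ (K : Set V) := by
  rw [convex_iff_forall_pos]
  intro x hx y hy a b ha hb _
  exact K.add_mem (smul_mem' K ha.le hx) (smul_mem' K hb.le hy)

/-- The interior of the nef cone consists of effective classes. -/
theorem interior_K (hX : X.IsProjective) {x : Fin X.ρ → ℝ}
    (hx : x ∈ interior (X.K : Set (Fin X.ρ → ℝ))) : x ∈ X.Ef := by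
  obtain ⟨a, ha⟩ := hX.amp_ne
  have h1 : interior (closure (cone X.amp)) = interior (cone X.amp) :=
    (convex_span (Submodule.span ℝ≥0 X.amp)).interior_closure_eq_interior_of_nonempty_interior
      ⟨a, amp_interior hX ha⟩
  rw [coe_K] at hx
  have h2 : x ∈ interior (cone X.amp) := by
    rw [← h1]; exact hx
  have h3 : x ∈ Submodule.span ℝ≥0 X.amp := interior_subset h2
  refine Submodule.span_le.2 ?_ h3
  intro a ha
  obtain ⟨n, hn, hn'⟩ := hX.amp_eff a ha
  have hn0 : (0 : ℝ) < n := by exact_mod_cast hn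
  have h4 : ((1 : ℝ) / n) • ((n : ℝ) • a) ∈ X.Ef := smul_mem' _ (by positivity)
    (Submodule.subset_span hn')
  rwa [smul_smul, one_div, inv_mul_cancel₀ hn0.ne', one_smul] at h4

theorem good (hX : X.IsProjective) : Good X.K (act hX) where
  closed := Submodule.isClosed_topologicalClosure _
  salient x hx hx' := hX.salient x (mem_K.1 hx) (mem_K.1 hx')
  ne := by
    obtain ⟨a, ha⟩ := hX.amp_ne
    refine ⟨a, interior_mono ?_ (amp_interior hX ha)⟩
    rw [coe_K]
    exact subset_closure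
  int φ x hx := hX.int _ x hx
  pres φ x hx := by
    rw [mem_K] at hx ⊢
    have h1 : Continuous (act hX φ) := (act hX φ).continuous_of_finiteDimensional
    have h2 : act hX φ x ∈ act hX φ '' closure (cone X.amp) := Set.mem_image_of_mem _ hx
    have h3 : act hX φ '' cone X.amp ⊆ cone X.amp := by
      rintro _ ⟨y, hy, rfl⟩
      exact map_cone (act hX φ) (fun a ha => Submodule.subset_span (hX.pb_amp _ a ha)) hy
    exact closure_mono h3 (image_closure_subset_closure_image h1 h2)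

theorem act_Ef (hX : X.IsProjective) (φ : X.Aut) {x : Fin X.ρ → ℝ} (hx : x ∈ X.Ef) :
    act hX φ x ∈ X.Ef :=
  map_cone (act hX φ) (fun a ha => Submodule.subset_span (hX.pb_eff _ a ha)) hx

/-- The cone conjecture in terms of covers by translates of polyhedral cones. -/
structure Polyh (hX : X.IsProjective) : Prop where
  eff : ∀ x, x ∈ Kp X.K → x ∈ X.Ef
  kp : ∀ x, x ∈ X.K → x ∈ X.Ef → x ∈ Kp X.K
  cov : ∃ s : Finset (Fin X.ρ → ℝ), (∀ v ∈ s, IsInt v ∧ v ∈ X.K) ∧
    ∀ x ∈ interior (X.K : Set (Fin X.ρ → ℝ)), ∃ a, ∃ y ∈ Submodule.span ℝ≥0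
      (s : Set (Fin X.ρ → ℝ)), x = act hX a y

theorem Polyh.conj {hX : X.IsProjective} (h : Polyh hX) : X.ConeConjecture := by
  obtain ⟨s, hs, hcov⟩ := h.cov
  obtain ⟨t, ht, -, ht2, ht3⟩ := looijenga (good hX) hs hcov
  have htK : ∀ y ∈ Submodule.span ℝ≥0 (t : Set (Fin X.ρ → ℝ)), y ∈ Kp X.K := fun y hy =>
    Submodule.span_le.2 (fun v hv => mem_Kp_of (ht v hv).2 (ht v hv).1) hy
  refine ⟨t, fun v hv => (ht v hv).1, ?_, fun φ hφ x => ?_⟩
  · ext x
    rw [Set.mem_iUnion]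
    constructor
    · rintro ⟨hx, hx'⟩
      obtain ⟨a, y, hy, hxy⟩ := ht2 x (h.kp x (mem_K.2 hx) hx')
      exact ⟨a⁻¹, y, hy, hxy.symm⟩
    · rintro ⟨φ, y, hy, rfl⟩
      have h1 : X.pb φ y ∈ Kp X.K := by
        rw [pb_eq hX]
        exact (good hX).kp _ (htK y hy)
      exact ⟨mem_K.1 (Kp_le h1), h.eff _ h1⟩
  · have h1 := ht3 φ⁻¹ (by
      have e : ∀ y, act hX φ⁻¹ y = X.pb φ y := fun y => (pb_eq hX φ y).symm
      have e' : (act hX φ⁻¹ : (Fin X.ρ → ℝ) → (Fin X.ρ → ℝ)) = X.pb φ := funext e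
      rw [e']
      exact Set.nonempty_iff_ne_empty.2 hφ)
    rw [pb_eq hX, h1, Module.End.one_apply]

theorem polyh (hX : X.IsProjective) (h : X.ConeConjecture) : Polyh hX := by
  obtain ⟨s, hs, hs1, -⟩ := h
  have hsub : ∀ y ∈ Submodule.span ℝ≥0 (s : Set (Fin X.ρ → ℝ)), y ∈ X.Nef ∩ X.Eff := by
    intro y hy
    rw [hs1, Set.mem_iUnion]
    exact ⟨1, y, hy, hX.one y⟩
  have hsK : ∀ v ∈ s, IsInt v ∧ v ∈ X.K := fun v hv =>
    ⟨hs v hv, mem_K.2 (hsub v (Submodule.subset_span hv)).1⟩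
  have hcov : ∀ x ∈ X.K, x ∈ X.Ef → ∃ a, ∃ y ∈ Submodule.span ℝ≥0
      (s : Set (Fin X.ρ → ℝ)), x = act hX a y := by
    intro x hx hx'
    have h1 : x ∈ X.Nef ∩ X.Eff := ⟨mem_K.1 hx, hx'⟩
    rw [hs1, Set.mem_iUnion] at h1
    obtain ⟨φ, y, hy, rfl⟩ := h1
    exact ⟨φ⁻¹, y, hy, pb_eq hX φ y⟩
  have hcov' : ∀ x ∈ interior (X.K : Set (Fin X.ρ → ℝ)), ∃ a, ∃ y ∈ Submodule.span ℝ≥0
      (s : Set (Fin X.ρ → ℝ)), x = act hX a y := fun x hx =>
    hcov x (interior_subset hx) (interior_K hX hx)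
  obtain ⟨t, ht, ht1, ht2, -⟩ := looijenga (good hX) hsK hcov'
  refine ⟨fun x hx => ?_, fun x hx hx' => ?_, s, hsK, hcov'⟩
  · obtain ⟨a, y, hy, rfl⟩ := ht2 x hx
    refine act_Ef hX a (Submodule.span_le.2 (fun v hv => ?_) hy)
    obtain ⟨b, z, hz, rfl⟩ := ht1 v hv
    exact act_Ef hX b (hsub z hz).2
  · obtain ⟨a, y, hy, rfl⟩ := hcov x hx hx'
    refine (good hX).kp a (Submodule.span_le.2 (fun v hv => ?_) hy)
    exact mem_Kp_of (hsK v hv).2 (hsK v hv).1

end Pool.Agent.E8helper40.CC.Cones
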