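import Pool.Agent.E8helper40.CC.Defs

/-!
# Rational polyhedral cones
-/

set_option autoImplicit false

open scoped NNReal

namespace Pool.Agent.E8helper40.CC

section int

variable {ι : Type} {x y : ι → ℝ}

theorem IsInt.zero : IsInt (0 : ι → ℝ) := fun _ => ⟨0, by simp⟩

theorem IsInt.add (hx : IsInt x) (hy : IsInt y) : IsInt (x + y) := fun i => by
  obtain ⟨a, ha⟩ := hx i
  obtain ⟨b, hb⟩ := hy i
  exact ⟨a + b, by simp [ha, hb]⟩

theorem IsInt.neg (hx : IsInt x) : IsInt (-x) := fun i => by
  obtain ⟨a, ha⟩ := hx i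
  exact ⟨-a, by simp [ha]⟩

theorem IsInt.sub (hx : IsInt x) (hy : IsInt y) : IsInt (x - y) := by
  rw [sub_eq_add_neg]; exact hx.add hy.neg

theorem IsInt.smul (m : ℤ) (hx : IsInt x) : IsInt ((m : ℝ) • x) := fun i => by
  obtain ⟨a, ha⟩ := hx i
  exact ⟨m * a, by simp [ha]⟩

theorem IsInt.smul_nat (m : ℕ) (hx : IsInt x) : IsInt ((m : ℝ) • x) := by
  have := hx.smul (m : ℤ)
  simpa using this

theorem IsInt.sum {κ : Type*} (s : Finset κ) (f : κ → ι → ℝ) (h : ∀ k ∈ s, IsInt (f k)) :
    IsInt (∑ k ∈ s, f k) := by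
  classical
  induction s using Finset.induction_on with
  | empty => simpa using IsInt.zero
  | insert a s ha ih =>
    rw [Finset.sum_insert ha]
    exact (h a (Finset.mem_insert_self a s)).add
      (ih fun k hk => h k (Finset.mem_insert_of_mem hk))

theorem IsInt.single [DecidableEq ι] (i : ι) (m : ℤ) : IsInt (Pi.single i (m : ℝ) : ι → ℝ) := by
  intro j
  by_cases h : j = i
  · subst h; exact ⟨m, by simp⟩
  · exact ⟨0, by simp [Pi.single_eq_of_ne h]⟩

end int

/-- The linear form `l` is integral. -/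
def IntForm {ι : Type} (l : (ι → ℝ) →ₗ[ℝ] ℝ) : Prop := ∀ x, IsInt x → ∃ m : ℤ, l x = m

section smul

variable {V : Type*} [AddCommGroup V] [Module ℝ V]

theorem smul_mem' (K : Submodule ℝ≥0 V) {c : ℝ} (hc : 0 ≤ c) {x : V} (hx : x ∈ K) : c • x ∈ K :=
  K.smul_mem ⟨c, hc⟩ hx

theorem sum_mem' (K : Submodule ℝ≥0 V) {κ : Type*} (s : Finset κ) (c : κ → ℝ) (g : κ → V)
    (hc : ∀ k ∈ s, 0 ≤ c k) (hg : ∀ k ∈ s, g k ∈ K) : ∑ k ∈ s, c k • g k ∈ K :=
  Submodule.sum_mem _ fun k hk => smul_mem' K (hc k hk) (hg k hk)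

theorem exists_coeff {s : Finset V} {x : V} (hx : x ∈ Submodule.span ℝ≥0 (s : Set V)) :
    ∃ c : V → ℝ, (∀ v, 0 ≤ c v) ∧ x = ∑ v ∈ s, c v • v := by
  obtain ⟨f, -, hf⟩ := Submodule.mem_span_finset.1 hx
  exact ⟨fun v => f v, fun v => (f v).2, hf.symm⟩

end smul

section half

variable {ι : Type}

/-- The intersection of a rational polyhedral cone with a rational half space is rational
polyhedral. -/
theorem halfspace (s : Finset (ι → ℝ)) (hs : ∀ v ∈ s, IsInt v) (l : (ι → ℝ) →ₗ[ℝ] ℝ)
    (hl : IntForm l) : ∃ t : Finset (ι → ℝ), (∀ v ∈ t, IsInt v) ∧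
      ∀ x, x ∈ Submodule.span ℝ≥0 (t : Set (ι → ℝ)) ↔
        x ∈ Submodule.span ℝ≥0 (s : Set (ι → ℝ)) ∧ 0 ≤ l x := by
  classical
  set sp := s.filter (fun v => 0 < l v) with hsp
  set sn := s.filter (fun v => l v < 0) with hsn
  set sz := s.filter (fun v => l v = 0) with hsz
  set g : (ι → ℝ) × (ι → ℝ) → (ι → ℝ) := fun p => l p.1 • p.2 - l p.2 • p.1 with hg
  refine ⟨(sp ∪ sz) ∪ (sp ×ˢ sn).image g, ?_, fun x => ⟨fun hx => ?_, ?_⟩⟩
  · intro v hv
    rw [Finset.mem_union, Finset.mem_union, Finset.mem_image] at hv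
    rcases hv with (hv | hv) | ⟨p, hp, rfl⟩
    · exact hs v (Finset.mem_filter.1 hv).1
    · exact hs v (Finset.mem_filter.1 hv).1
    · rw [Finset.mem_product] at hp
      have h1 := hs _ (Finset.mem_filter.1 hp.1).1
      have h2 := hs _ (Finset.mem_filter.1 hp.2).1
      obtain ⟨m, hm⟩ := hl _ h1
      obtain ⟨m', hm'⟩ := hl _ h2
      simp only [hg]
      rw [hm, hm']
      exact (h2.smul m).sub (h1.smul m')
  · let W : Submodule ℝ≥0 (ι → ℝ) :=
      { carrier := {x | x ∈ Submodule.span ℝ≥0 (s : Set (ι → ℝ)) ∧ 0 ≤ l x}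
        add_mem' := fun {a b} ha hb => ⟨Submodule.add_mem _ ha.1 hb.1, by
          rw [map_add]; exact add_nonneg ha.2 hb.2⟩
        zero_mem' := ⟨Submodule.zero_mem _, by rw [map_zero]⟩
        smul_mem' := fun c a ha => ⟨Submodule.smul_mem _ _ ha.1, by
          have : l (c • a) = (c : ℝ) * l a := by
            rw [NNReal.smul_def, map_smul, smul_eq_mul]
          rw [this]; exact mul_nonneg c.2 ha.2⟩ }
    have h1 : Submodule.span ℝ≥0 (((sp ∪ sz) ∪ (sp ×ˢ sn).image g : Finset (ι → ℝ)) :
        Set (ι → ℝ)) ≤ W := by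
      rw [Submodule.span_le]
      intro v hv
      rw [Finset.mem_coe, Finset.mem_union, Finset.mem_union, Finset.mem_image] at hv
      rcases hv with (hv | hv) | ⟨p, hp, rfl⟩
      · have := Finset.mem_filter.1 hv
        exact ⟨Submodule.subset_span this.1, this.2.le⟩
      · have := Finset.mem_filter.1 hv
        exact ⟨Submodule.subset_span this.1, this.2.ge⟩
      · rw [Finset.mem_product] at hp
        have h1 := Finset.mem_filter.1 hp.1
        have h2 := Finset.mem_filter.1 hp.2
        constructor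
        · have e : g p = l p.1 • p.2 + (-l p.2) • p.1 := by
            simp only [hg]; rw [neg_smul, sub_eq_add_neg]
          rw [e]
          exact Submodule.add_mem _ (smul_mem' _ h1.2.le (Submodule.subset_span h2.1))
            (smul_mem' _ (by linarith [h2.2]) (Submodule.subset_span h1.1))
        · simp only [hg]
          rw [map_sub, map_smul, map_smul, smul_eq_mul, smul_eq_mul, mul_comm, sub_self]
    exact h1 hx
  · rintro ⟨hx, hlx⟩
    obtain ⟨c, hc, hxc⟩ := exists_coeff hx
    set T := Submodule.span ℝ≥0 (((sp ∪ sz) ∪ (sp ×ˢ sn).image g : Finset (ι → ℝ)) :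
        Set (ι → ℝ)) with hT
    have hTp : ∀ v ∈ sp, v ∈ T := fun v hv => Submodule.subset_span (by
      rw [Finset.mem_coe]; exact Finset.mem_union_left _ (Finset.mem_union_left _ hv))
    have hTz : ∀ v ∈ sz, v ∈ T := fun v hv => Submodule.subset_span (by
      rw [Finset.mem_coe]; exact Finset.mem_union_left _ (Finset.mem_union_right _ hv))
    have hTg : ∀ p ∈ sp ×ˢ sn, g p ∈ T := fun p hp => Submodule.subset_span (by
      rw [Finset.mem_coe]; exact Finset.mem_union_right _ (Finset.mem_image_of_mem g hp))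
    have hsplit : ∀ {M : Type} [AddCommMonoid M] (f : (ι → ℝ) → M),
        ∑ v ∈ s, f v = ∑ v ∈ sz, f v + (∑ v ∈ sp, f v + ∑ v ∈ sn, f v) := by
      intro M _ f
      have e1 : s = sz ∪ (sp ∪ sn) := by
        ext v
        simp only [hsp, hsn, hsz, Finset.mem_union, Finset.mem_filter]
        constructor
        · intro h
          rcases lt_trichotomy (l v) 0 with h1 | h1 | h1
          · exact Or.inr (Or.inr ⟨h, h1⟩)
          · exact Or.inl ⟨h, h1⟩
          · exact Or.inr (Or.inl ⟨h, h1⟩)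
        · rintro (h | h | h) <;> exact h.1
      have d1 : Disjoint sp sn := by
        rw [Finset.disjoint_left]
        intro v h1 h2
        have h1 := (Finset.mem_filter.1 h1).2
        have h2 := (Finset.mem_filter.1 h2).2
        linarith
      have d2 : Disjoint sz (sp ∪ sn) := by
        rw [Finset.disjoint_left]
        intro v h1 h2
        have h1 := (Finset.mem_filter.1 h1).2
        rw [Finset.mem_union] at h2
        rcases h2 with h2 | h2
        · have h2 := (Finset.mem_filter.1 h2).2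
          linarith
        · have h2 := (Finset.mem_filter.1 h2).2
          linarith
      rw [← Finset.sum_union d1, ← Finset.sum_union d2, ← e1]
    set P := ∑ v ∈ sp, c v * l v with hP
    set Nn := ∑ w ∈ sn, c w * (-l w) with hNn
    have hPN : l x = P - Nn := by
      rw [hxc, map_sum]
      simp only [map_smul, smul_eq_mul]
      rw [hsplit (fun v => c v * l v)]
      have e0 : ∑ v ∈ sz, c v * l v = 0 := Finset.sum_eq_zero fun v hv => by
        rw [(Finset.mem_filter.1 hv).2, mul_zero]
      have e1 : ∑ w ∈ sn, c w * l w = -Nn := by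
        rw [hNn, ← Finset.sum_neg_distrib]
        exact Finset.sum_congr rfl fun w _ => by ring
      rw [e0, e1]; ring
    have hN0 : 0 ≤ Nn := Finset.sum_nonneg fun w hw => mul_nonneg (hc w) (by
      have := (Finset.mem_filter.1 hw).2; linarith)
    have hP0 : 0 ≤ P := Finset.sum_nonneg fun w hw => mul_nonneg (hc w)
      (Finset.mem_filter.1 hw).2.le
    have hz : ∑ v ∈ sz, c v • v ∈ T := sum_mem' T sz c id (fun v _ => hc v) hTz
    have hpos : ∑ v ∈ sp, c v • v ∈ T := sum_mem' T sp c id (fun v _ => hc v) hTp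
    rcases hP0.eq_or_lt with h0 | h0
    · have hN : Nn = 0 := by linarith
      have hcn : ∀ w ∈ sn, c w = 0 := by
        intro w hw
        have h1 := (Finset.sum_eq_zero_iff_of_nonneg (fun w hw => mul_nonneg (hc w) (by
          have := (Finset.mem_filter.1 hw).2; linarith))).1 hN w hw
        rcases mul_eq_zero.1 h1 with h1 | h1
        · exact h1
        · have := (Finset.mem_filter.1 hw).2
          linarith
      rw [hxc, hsplit (fun v => c v • v)]
      have e1 : ∑ w ∈ sn, c w • w = 0 := Finset.sum_eq_zero fun w hw => by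
        rw [hcn w hw, zero_smul]
      rw [e1, add_zero]
      exact Submodule.add_mem _ hz hpos
    · have key : ∑ p ∈ sp ×ˢ sn, (c p.1 * c p.2 / P) • g p =
          ∑ w ∈ sn, c w • w + (Nn / P) • ∑ v ∈ sp, c v • v := by
        rw [Finset.sum_product]
        have e1 : ∀ v ∈ sp, ∑ w ∈ sn, (c v * c w / P) • g (v, w) =
            (c v * l v / P) • ∑ w ∈ sn, c w • w + (Nn / P) • (c v • v) := by
          intro v _
          rw [Finset.smul_sum, hNn, Finset.sum_div, Finset.sum_smul, ← Finset.sum_add_distrib]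
          refine Finset.sum_congr rfl fun w _ => ?_
          simp only [hg]
          rw [smul_sub, smul_smul, smul_smul, smul_smul, smul_smul, sub_eq_add_neg, ← neg_smul]
          congr 2 <;> ring
        rw [Finset.sum_congr rfl e1, Finset.sum_add_distrib, ← Finset.smul_sum, ← Finset.sum_smul,
          ← Finset.sum_div, div_self h0.ne', one_smul]
      have e : x = ∑ v ∈ sz, c v • v + ((1 - Nn / P) • ∑ v ∈ sp, c v • v +
          ∑ p ∈ sp ×ˢ sn, (c p.1 * c p.2 / P) • g p) := by
        rw [key, hxc, hsplit (fun v => c v • v), sub_smul, one_smul]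
        abel
      rw [e]
      refine Submodule.add_mem _ hz (Submodule.add_mem _ (smul_mem' _ ?_ hpos) ?_)
      · rw [sub_nonneg, div_le_one h0]
        linarith
      · exact sum_mem' T _ _ g (fun p _ => div_nonneg (mul_nonneg (hc _) (hc _)) h0.le) hTg

/-- The intersection of a rational polyhedral cone with finitely many rational half spaces. -/
theorem halfspaces (s : Finset (ι → ℝ)) (hs : ∀ v ∈ s, IsInt v)
    (F : Finset ((ι → ℝ) →ₗ[ℝ] ℝ)) (hF : ∀ l ∈ F, IntForm l) :
    ∃ t : Finset (ι → ℝ), (∀ v ∈ t, IsInt v) ∧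
      ∀ x, x ∈ Submodule.span ℝ≥0 (t : Set (ι → ℝ)) ↔
        x ∈ Submodule.span ℝ≥0 (s : Set (ι → ℝ)) ∧ ∀ l ∈ F, 0 ≤ l x := by
  classical
  induction F using Finset.induction_on with
  | empty => exact ⟨s, hs, fun x => by simp⟩
  | insert l F hl ih =>
    obtain ⟨t, ht, ht'⟩ := ih fun l hl => hF l (Finset.mem_insert_of_mem hl)
    obtain ⟨t2, h2, h2'⟩ := halfspace t ht l (hF l (Finset.mem_insert_self l F))
    refine ⟨t2, h2, fun x => ?_⟩
    rw [h2', ht', Finset.forall_mem_insert]
    tauto

end half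

end Pool.Agent.E8helper40.CC
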