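import Mathlib

/-!
# The cone conjecture: definitions
-/

set_option autoImplicit false

open scoped NNReal

namespace Pool.Agent.E8helper40.CC

/-- The vector `x` has integral coordinates. -/
def IsInt {ι : Type} (x : ι → ℝ) : Prop := ∀ i, ∃ m : ℤ, x i = m

/-- The convex cone generated by `S`. -/
def cone {ρ : ℕ} (S : Set (Fin ρ → ℝ)) : Set (Fin ρ → ℝ) := (Submodule.span ℝ≥0 S : Set _)

/-- Cones of divisors of a projective variety `X` with the action of the automorphism group. The
space `N^1(X)` is identified with `ℝ^ρ` by a basis of the group of Cartier divisors modulo numerical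
equivalence, so that the integral vectors are the classes of Cartier divisors. -/
structure Cones where
  /-- the Picard number -/
  ρ : ℕ
  /-- the automorphism group -/
  Aut : Type
  [group : Group Aut]
  /-- the classes of ample divisors -/
  amp : Set (Fin ρ → ℝ)
  /-- the classes of effective divisors -/
  eff : Set (Fin ρ → ℝ)
  /-- the pull-back `φ^*` -/
  pb : Aut → ((Fin ρ → ℝ) →ₗ[ℝ] (Fin ρ → ℝ))

attribute [instance] Cones.group

namespace Cones

variable (X : Cones)

/-- The nef cone: the closure of the cone spanned by the classes of ample divisors. -/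
def Nef : Set (Fin X.ρ → ℝ) := closure (cone X.amp)

/-- The cone of classes of effective divisors. -/
def Eff : Set (Fin X.ρ → ℝ) := cone X.eff

/-- The standard properties of the divisor classes of a projective variety: pull-back is
contravariant and preserves integral, ample and effective classes; ampleness is an open condition;
ample divisors have effective multiples; a divisor class `x` such that `x` and `-x` are nef is
zero. -/
structure IsProjective : Prop where
  one : ∀ x, X.pb 1 x = x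
  mul : ∀ (φ ψ : X.Aut) (x : Fin X.ρ → ℝ), X.pb (φ * ψ) x = X.pb ψ (X.pb φ x)
  int : ∀ (φ : X.Aut) (x : Fin X.ρ → ℝ), IsInt x → IsInt (X.pb φ x)
  pb_amp : ∀ (φ : X.Aut), ∀ x ∈ X.amp, X.pb φ x ∈ X.amp
  pb_eff : ∀ (φ : X.Aut), ∀ x ∈ X.eff, X.pb φ x ∈ X.eff
  amp_int : ∀ x ∈ X.amp, IsInt x
  amp_ne : X.amp.Nonempty
  amp_open : ∀ x ∈ X.amp, ∀ d : Fin X.ρ → ℝ, IsInt d → ∃ n : ℕ, 0 < n ∧ (n : ℝ) • x + d ∈ X.amp
  amp_eff : ∀ x ∈ X.amp, ∃ n : ℕ, 0 < n ∧ (n : ℝ) • x ∈ X.eff
  salient : ∀ x ∈ X.Nef, -x ∈ X.Nef → x = 0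

/-- The cone conjecture of Kawamata and Morrison for the effective nef cone of `X`: there is a
rational polyhedral cone `Π` such that `Nef(X)^e = Nef(X) ∩ Eff(X)` is the union of the cones
`φ^* Π`, and the interiors of `Π` and `φ^* Π` are disjoint unless `φ^* = id`. -/
def ConeConjecture : Prop :=
  ∃ s : Finset (Fin X.ρ → ℝ), (∀ v ∈ s, IsInt v) ∧
    X.Nef ∩ X.Eff = ⋃ φ : X.Aut, X.pb φ '' cone (s : Set (Fin X.ρ → ℝ)) ∧
    ∀ φ : X.Aut, interior (cone (s : Set (Fin X.ρ → ℝ))) ∩
      X.pb φ '' interior (cone (s : Set (Fin X.ρ → ℝ))) ≠ ∅ → ∀ x, X.pb φ x = x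

/-- Properties of the kernel of the action of `Aut(X)` on `N^1(X)`: it contains, with finite index,
a normal subgroup `B` of `Aut(X)` which is commutative and divisible and has finitely many elements
of order dividing `n`, for all `n > 0`. If `K_X ≡ 0` (or, more generally, if `X` is not uniruled),
`B` is the identity component `Aut^0(X)`, an abelian variety. -/
def AbelianByFinite : Prop :=
  ∃ B : Subgroup X.Aut, B.Normal ∧ (∀ a ∈ B, ∀ b ∈ B, a * b = b * a) ∧
    (∀ n : ℕ, 0 < n → ∀ a ∈ B, ∃ b ∈ B, b ^ n = a) ∧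
    (∀ n : ℕ, 0 < n → {a : X.Aut | a ∈ B ∧ a ^ n = 1}.Finite) ∧
    (∀ a ∈ B, ∀ x, X.pb a x = x) ∧
    ∃ F : Finset X.Aut, ∀ φ : X.Aut, (∀ x, X.pb φ x = x) → ∃ f ∈ F, ∃ b ∈ B, φ = f * b

/-- `X` is the product of the varieties `P j`, and `N^1(X)` is the direct sum of the spaces
`N^1(P j)` (by the pull-backs under the projections): `e` is the isomorphism. The nef cone and the
effective cone are the products of the corresponding cones, and products of automorphisms are
automorphisms. -/
structure IsProduct {r : ℕ} (P : Fin r → Cones) (X : Cones)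
    (e : (Fin X.ρ → ℝ) ≃ₗ[ℝ] (∀ j, Fin (P j).ρ → ℝ)) : Prop where
  int : ∀ x, IsInt x ↔ ∀ j, IsInt (e x j)
  nef : ∀ x, x ∈ X.Nef ↔ ∀ j, e x j ∈ (P j).Nef
  eff : ∀ x, x ∈ X.Eff ↔ ∀ j, e x j ∈ (P j).Eff
  aut : ∀ φ : (∀ j, (P j).Aut), ∃ ψ : X.Aut, ∀ x j, e (X.pb ψ x) j = (P j).pb (φ j) (e x j)

/-- `Y` is the quotient of `X` by the finite group `G` of automorphisms of `X`, and `p` is the
pull-back `N^1(Y) → N^1(X)` of divisor classes under the quotient map: it is an isomorphism onto the
subspace of invariants, it is compatible with the rational structures, it preserves and reflects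
nef and effective classes, and the automorphisms of `X` which commute with `G` descend to `Y`. -/
structure IsQuotient (X Y : Cones) (G : Subgroup X.Aut)
    (p : (Fin Y.ρ → ℝ) →ₗ[ℝ] (Fin X.ρ → ℝ)) : Prop where
  inj : Function.Injective p
  range : ∀ x, (∃ y, p y = x) ↔ ∀ g ∈ G, X.pb g x = x
  int : ∀ y, IsInt y → IsInt (p y)
  rat : ∀ y, IsInt (p y) → ∃ n : ℕ, 0 < n ∧ IsInt ((n : ℝ) • y)
  nef : ∀ y, p y ∈ X.Nef ↔ y ∈ Y.Nef
  eff : ∀ y, p y ∈ X.Eff ↔ y ∈ Y.Eff
  desc : ∀ φ : X.Aut, (∀ g ∈ G, φ * g = g * φ) → ∃ ψ : Y.Aut, ∀ y, p (Y.pb ψ y) = X.pb φ (p y)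

end Cones

end Pool.Agent.E8helper40.CC
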