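import Pool.Agent.E8helper40.CC.Reps

/-!
# The cone conjecture for quotients and products
-/

set_option autoImplicit false
set_option linter.unusedSectionVars false

open scoped NNReal

namespace Pool.Agent.E8helper40.CC.Cones

section quotient

variable {X Y : Cones} {hX : X.IsProjective} {hY : Y.IsProjective} {G : Subgroup X.Aut}
  {p : (Fin Y.ρ → ℝ) →ₗ[ℝ] (Fin X.ρ → ℝ)}

/-- The sum over the group. -/
noncomputable def avg (hX : X.IsProjective) (G : Subgroup X.Aut) [Fintype G] :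
    Module.End ℝ (Fin X.ρ → ℝ) := ∑ g : G, act hX (g : X.Aut)

theorem avg_apply (hX : X.IsProjective) (G : Subgroup X.Aut) [Fintype G] (x : Fin X.ρ → ℝ) :
    avg hX G x = ∑ g : G, act hX (g : X.Aut) x := by
  rw [avg, LinearMap.sum_apply]

theorem inv_iff (hX : X.IsProjective) {x : Fin X.ρ → ℝ} :
    (∀ g ∈ G, X.pb g x = x) ↔ ∀ g ∈ G, act hX g x = x := by
  constructor
  · intro h g hg; exact h g⁻¹ (G.inv_mem hg)
  · intro h g hg; rw [pb_eq hX]; exact h g⁻¹ (G.inv_mem hg)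

theorem avg_inv (hX : X.IsProjective) [Fintype G] (x : Fin X.ρ → ℝ) :
    ∀ g ∈ G, act hX g (avg hX G x) = avg hX G x := by
  intro g hg
  rw [avg_apply, map_sum]
  refine Fintype.sum_equiv (Equiv.mulLeft (⟨g, hg⟩ : G)) _ _ fun h => ?_
  rw [← Module.End.mul_apply, ← map_mul]
  rfl

theorem avg_of_inv (hX : X.IsProjective) [Fintype G] {x : Fin X.ρ → ℝ}
    (h : ∀ g ∈ G, act hX g x = x) : avg hX G x = (Fintype.card G : ℝ) • x := by
  rw [avg_apply, Finset.sum_congr rfl fun (g : G) _ => h g g.2, Finset.sum_const,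
    Finset.card_univ, Nat.cast_smul_eq_nsmul]

theorem avg_int (hX : X.IsProjective) [Fintype G] {x : Fin X.ρ → ℝ} (h : IsInt x) :
    IsInt (avg hX G x) := by
  rw [avg_apply]
  exact IsInt.sum _ _ fun g _ => (good hX).int _ _ h

theorem avg_K (hX : X.IsProjective) [Fintype G] {x : Fin X.ρ → ℝ} (h : x ∈ X.K) :
    avg hX G x ∈ X.K := by
  rw [avg_apply]
  exact Submodule.sum_mem _ fun g _ => (good hX).pres _ _ h

theorem avg_interior (hX : X.IsProjective) [Fintype G] {x : Fin X.ρ → ℝ}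
    (h : x ∈ interior (X.K : Set (Fin X.ρ → ℝ))) :
    avg hX G x ∈ interior (X.K : Set (Fin X.ρ → ℝ)) := by
  classical
  rw [avg_apply, ← Finset.add_sum_erase _ _ (Finset.mem_univ (1 : G))]
  exact add_interior ((good hX).interior _ h)
    (Submodule.sum_mem _ fun g _ => (good hX).pres _ _ (interior_subset h))

theorem nef_iff (hq : IsQuotient X Y G p) {y : Fin Y.ρ → ℝ} : p y ∈ X.K ↔ y ∈ Y.K := by
  rw [mem_K, mem_K, hq.nef]

/-- Invariant integral vectors come from rational vectors. -/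
theorem exists_lift (hX : X.IsProjective) (hq : IsQuotient X Y G p) [Fintype G]
    {v : Fin X.ρ → ℝ} (hv : IsInt v) (hvK : v ∈ X.K) :
    ∃ (n : ℕ) (w : Fin Y.ρ → ℝ), 0 < n ∧ IsInt w ∧ w ∈ Y.K ∧ p w = (n : ℝ) • avg hX G v := by
  obtain ⟨y, hy⟩ := (hq.range (avg hX G v)).2 ((inv_iff hX).2 (avg_inv hX v))
  obtain ⟨n, hn, hn'⟩ := hq.rat y (by rw [hy]; exact avg_int hX hv)
  refine ⟨n, (n : ℝ) • y, hn, hn', ?_, by rw [map_smul, hy]⟩
  rw [← nef_iff hq, map_smul, hy]
  exact smul_mem' _ (by positivity) (avg_K hX hvK)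

/-- Invariant vectors in a cone come from the cone below. -/
theorem mem_of_avg (hX : X.IsProjective) (hq : IsQuotient X Y G p) [Fintype G]
    {s : Finset (Fin X.ρ → ℝ)} {T : Submodule ℝ≥0 (Fin Y.ρ → ℝ)}
    (hT : ∀ v ∈ s, ∃ (n : ℕ) (w : Fin Y.ρ → ℝ), 0 < n ∧ w ∈ T ∧ p w = (n : ℝ) • avg hX G v)
    {y : Fin Y.ρ → ℝ} (hy : p y ∈ Submodule.span ℝ≥0 (s : Set (Fin X.ρ → ℝ))) : y ∈ T := by
  classical
  choose! n w hn hw hpw using hT
  obtain ⟨c, hc, hyc⟩ := exists_coeff hy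
  have hinv : ∀ g ∈ G, act hX g (p y) = p y := (inv_iff hX).1 ((hq.range (p y)).1 ⟨y, rfl⟩)
  have hcard : (0 : ℝ) < Fintype.card G := by exact_mod_cast Fintype.card_pos
  have e : y = ((Fintype.card G : ℝ)⁻¹) • ∑ v ∈ s, (c v / n v) • w v := by
    apply hq.inj
    rw [map_smul, map_sum]
    have e1 : ∑ v ∈ s, p ((c v / n v) • w v) = avg hX G (p y) := by
      rw [hyc, map_sum]
      refine Finset.sum_congr rfl fun v hv => ?_
      have : (0 : ℝ) < n v := by exact_mod_cast hn v hv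
      rw [map_smul, map_smul, hpw v hv, smul_smul, div_mul_cancel₀ _ this.ne']
    rw [e1, avg_of_inv hX hinv, smul_smul, inv_mul_cancel₀ hcard.ne', one_smul]
  rw [e]
  exact smul_mem' _ (by positivity) (sum_mem' T s _ w (fun v _ => div_nonneg (hc v)
    (Nat.cast_nonneg _)) fun v hv => hw v hv)

theorem interior_lift (hX : X.IsProjective) (hY : Y.IsProjective) (hq : IsQuotient X Y G p)
    [Fintype G] {y : Fin Y.ρ → ℝ} (hy : y ∈ interior (Y.K : Set (Fin Y.ρ → ℝ))) :
    p y ∈ interior (X.K : Set (Fin X.ρ → ℝ)) := by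
  obtain ⟨a, ha⟩ := (good hX).ne
  obtain ⟨y0, hy0⟩ := (hq.range (avg hX G a)).2 ((inv_iff hX).2 (avg_inv hX a))
  obtain ⟨δ, hδ, hball⟩ := Metric.isOpen_iff.1 isOpen_interior y hy
  set c : ℝ := δ / (2 * (‖y0‖ + 1)) with hc
  have hn : 0 ≤ ‖y0‖ := norm_nonneg y0
  have hc0 : 0 < c := by positivity
  have h1 : y - c • y0 ∈ Y.K := by
    refine interior_subset (hball ?_)
    rw [Metric.mem_ball, dist_eq_norm, sub_sub_cancel_left, norm_neg, norm_smul,
      Real.norm_of_nonneg hc0.le, hc, div_mul_eq_mul_div, div_lt_iff₀ (by positivity)]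
    nlinarith
  have h2 := (nef_iff hq).2 h1
  have e : p y = c • avg hX G a + p (y - c • y0) := by
    rw [map_sub, map_smul, hy0]; abel
  rw [e]
  exact add_interior (smul_interior hc0 (avg_interior hX ha)) h2

/-- **Descent.** -/
theorem descent (hX : X.IsProjective) (hY : Y.IsProjective) [Finite G]
    (hq : IsQuotient X Y G p) (hB : X.AbelianByFinite) (h : Polyh hX) : Polyh hY := by
  classical
  have _ : Fintype G := Fintype.ofFinite G
  refine ⟨fun y hy => ?_, fun y hy hy' => ?_, ?_⟩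
  · refine Submodule.span_le.2 ?_ hy
    rintro v ⟨hv, hv'⟩
    show v ∈ Y.Eff
    rw [← hq.eff]
    exact h.eff _ (mem_Kp_of ((nef_iff hq).2 hv) (hq.int v hv'))
  · have h1 : p y ∈ Kp X.K := h.kp _ ((nef_iff hq).2 hy) ((hq.eff y).2 hy')
    obtain ⟨s, hs, hs'⟩ := exists_finset h1
    refine mem_of_avg hX hq (s := s) (fun v hv => ?_) hs'
    obtain ⟨n, w, hn, hw, hwK, hpw⟩ := exists_lift hX hq (hs v hv).1 (hs v hv).2
    exact ⟨n, w, hn, mem_Kp_of hwK hw, hpw⟩
  · obtain ⟨s, hs, hcov⟩ := h.cov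
    obtain ⟨R, hR⟩ := finite_reps hX G hB (siegel (good hX) hs)
    have hlift : ∀ q ∈ R ×ˢ s, ∃ (n : ℕ) (w : Fin Y.ρ → ℝ), 0 < n ∧ IsInt w ∧ w ∈ Y.K ∧
        p w = (n : ℝ) • avg hX G (act hX q.1 q.2) := by
      intro q hq'
      rw [Finset.mem_product] at hq'
      exact exists_lift hX hq ((good hX).int _ _ (hs _ hq'.2).1)
        ((good hX).pres _ _ (hs _ hq'.2).2)
    choose! n w hn hw hwK hpw using hlift
    refine ⟨(R ×ˢ s).image w, fun v hv => ?_, fun y hy => ?_⟩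
    · obtain ⟨q, hq', rfl⟩ := Finset.mem_image.1 hv
      exact ⟨hw q hq', hwK q hq'⟩
    · have hx := interior_lift hX hY hq hy
      obtain ⟨a, z, hz, hpz⟩ := hcov _ hx
      have hinv : ∀ g ∈ G, act hX g (p y) = p y :=
        (inv_iff hX).1 ((hq.range (p y)).1 ⟨y, rfl⟩)
      have hz' : act hX a⁻¹ (p y) = z := by rw [hpz, inv_apply]
      have hzK : z ∈ interior (X.K : Set (Fin X.ρ → ℝ)) := by
        rw [← hz']; exact (good hX).interior _ hx
      obtain ⟨r, hr, z0, hz0, har⟩ := hR a (fun g hg => ⟨_, rfl, z, hz, hzK, by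
        have e : act hX (a⁻¹ * g * a) z = z := by
          rw [map_mul, map_mul, Module.End.mul_apply, Module.End.mul_apply, ← hpz, hinv g hg, hz']
        rw [e]; exact hz⟩)
      obtain ⟨ψ, hψ⟩ := hq.desc z0 hz0
      refine ⟨ψ, Y.pb ψ y, ?_, ?_⟩
      · have e : p (Y.pb ψ y) = act hX r z := by
          rw [hψ, hpz, har, map_mul, Module.End.mul_apply, pb_eq hX, inv_apply]
        refine mem_of_avg hX hq (s := s.image (act hX r)) (fun v hv => ?_) (y := Y.pb ψ y) ?_
        · obtain ⟨u, hu, rfl⟩ := Finset.mem_image.1 hv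
          have hmem : (r, u) ∈ R ×ˢ s := Finset.mem_product.2 ⟨hr, hu⟩
          exact ⟨n (r, u), w (r, u), hn _ hmem, Submodule.subset_span (by
            rw [Finset.mem_coe]; exact Finset.mem_image_of_mem w hmem), hpw _ hmem⟩
        · rw [e]
          exact map_cone (act hX r) (fun v hv => Submodule.subset_span (by
            rw [Finset.mem_coe] at hv ⊢
            exact Finset.mem_image_of_mem _ hv)) hz
      · rw [pb_eq hY, apply_inv]

end quotient

section product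

variable {r : ℕ} {P : Fin r → Cones} {X : Cones}
  {e : (Fin X.ρ → ℝ) ≃ₗ[ℝ] (∀ j, Fin (P j).ρ → ℝ)}

theorem nef_prod (hp : IsProduct P X e) {x : Fin X.ρ → ℝ} : x ∈ X.K ↔ ∀ j, e x j ∈ (P j).K := by
  rw [mem_K, hp.nef]
  exact forall_congr' fun j => mem_K.symm

/-- **Products.** -/
theorem product (hX : X.IsProjective) (hP : ∀ j, (P j).IsProjective) (hp : IsProduct P X e)
    (h : ∀ j, (P j).ConeConjecture) : Polyh hX := by
  classical
  have hpol : ∀ j, Polyh (hP j) := fun j => polyh (hP j) (h j)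
  choose s hs hs1 _ using h
  have hsub : ∀ j, ∀ y ∈ Submodule.span ℝ≥0 (s j : Set (Fin (P j).ρ → ℝ)),
      y ∈ (P j).Nef ∩ (P j).Eff := by
    intro j y hy
    rw [hs1, Set.mem_iUnion]
    exact ⟨1, y, hy, (hP j).one y⟩
  have hsK : ∀ j, ∀ v ∈ s j, v ∈ (P j).K := fun j v hv =>
    mem_K.2 (hsub j v (Submodule.subset_span hv)).1
  -- the generators
  set E : ∀ j, (Fin (P j).ρ → ℝ) →ₗ[ℝ] (Fin X.ρ → ℝ) := fun j =>
    (e.symm : (∀ j, Fin (P j).ρ → ℝ) →ₗ[ℝ] (Fin X.ρ → ℝ)) ∘ₗ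
      LinearMap.single ℝ (fun j => Fin (P j).ρ → ℝ) j with hE
  have hEj : ∀ j v i, e (E j v) i = (Pi.single j v : ∀ j, Fin (P j).ρ → ℝ) i := by
    intro j v i
    simp only [hE, LinearMap.comp_apply, LinearEquiv.coe_coe, LinearEquiv.apply_symm_apply,
      LinearMap.single_apply]
  have hEint : ∀ j v, IsInt v → IsInt (E j v) := by
    intro j v hv
    rw [hp.int]
    intro i
    rw [hEj]
    by_cases hij : i = j
    · subst hij; rw [Pi.single_eq_same]; exact hv
    · rw [Pi.single_eq_of_ne hij]; exact IsInt.zero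
  have hEK : ∀ j v, v ∈ (P j).K → E j v ∈ X.K := by
    intro j v hv
    rw [nef_prod hp]
    intro i
    rw [hEj]
    by_cases hij : i = j
    · subst hij; rw [Pi.single_eq_same]; exact hv
    · rw [Pi.single_eq_of_ne hij]; exact Submodule.zero_mem _
  set S : Finset (Fin X.ρ → ℝ) := Finset.univ.biUnion fun j => (s j).image (E j) with hS
  have hSK : ∀ v ∈ S, IsInt v ∧ v ∈ X.K := by
    intro v hv
    obtain ⟨j, -, hv⟩ := Finset.mem_biUnion.1 hv
    obtain ⟨w, hw, rfl⟩ := Finset.mem_image.1 hv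
    exact ⟨hEint j w (hs j w hw), hEK j w (hsK j w hw)⟩
  have hcov : ∀ x ∈ X.K, x ∈ X.Ef → ∃ a, ∃ y ∈ Submodule.span ℝ≥0 (S : Set (Fin X.ρ → ℝ)),
      x = act hX a y := by
    intro x hx hx'
    have h1 : ∀ j, e x j ∈ (P j).Nef ∩ (P j).Eff := fun j =>
      ⟨(hp.nef x).1 (mem_K.1 hx) j, (hp.eff x).1 hx' j⟩
    have h2 : ∀ j, ∃ φ : (P j).Aut, ∃ y ∈ Submodule.span ℝ≥0 (s j : Set (Fin (P j).ρ → ℝ)),
        (P j).pb φ y = e x j := by
      intro j
      have := h1 j
      rw [hs1, Set.mem_iUnion] at this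
      exact this
    choose φ y hy hφy using h2
    obtain ⟨ψ, hψ⟩ := hp.aut φ
    refine ⟨ψ⁻¹, e.symm y, ?_, ?_⟩
    · have e1 : e.symm y = ∑ j, E j (y j) := by
        rw [← e.injective.eq_iff, LinearEquiv.apply_symm_apply]
        funext i
        rw [map_sum, Finset.sum_apply]
        simp only [hEj]
        rw [Finset.sum_eq_single i]
        · rw [Pi.single_eq_same]
        · intro j _ hji; rw [Pi.single_eq_of_ne (Ne.symm hji)]
        · intro h; exact absurd (Finset.mem_univ i) h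
      rw [e1]
      refine Submodule.sum_mem _ fun j _ => map_cone (E j) (fun v hv => ?_) (hy j)
      refine Submodule.subset_span ?_
      rw [Finset.mem_coe] at hv ⊢
      exact Finset.mem_biUnion.2 ⟨j, Finset.mem_univ j, Finset.mem_image_of_mem _ hv⟩
    · rw [← pb_eq hX]
      apply e.injective
      funext j
      rw [hψ, LinearEquiv.apply_symm_apply, hφy]
  refine ⟨fun x hx => ?_, fun x hx hx' => ?_, S, hSK, fun x hx =>
    hcov x (interior_subset hx) (interior_K hX hx)⟩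
  · refine Submodule.span_le.2 ?_ hx
    rintro v ⟨hv, hv'⟩
    show v ∈ X.Eff
    rw [hp.eff]
    intro j
    exact (hpol j).eff _ (mem_Kp_of ((nef_prod hp).1 hv j) ((hp.int v).1 hv' j))
  · obtain ⟨a, y, hy, rfl⟩ := hcov x hx hx'
    refine (good hX).kp a (Submodule.span_le.2 (fun v hv => ?_) hy)
    exact mem_Kp_of (hSK v hv).2 (hSK v hv).1

end product

end Pool.Agent.E8helper40.CC.Cones
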