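import Pool.Agent.E8helper40.CC.Loo

/-!
# Rational polyhedral fundamental domains: construction
-/

set_option autoImplicit false
set_option linter.unusedSectionVars false

open scoped NNReal

namespace Pool.Agent.E8helper40.CC

variable {ι : Type} [Fintype ι] {K : Submodule ℝ≥0 (ι → ℝ)} {A : Type} [Group A]
  {ρ : A →* Module.End ℝ (ι → ℝ)}

/-- Finitely generated subcones of a salient cone are closed. -/
theorem closed_span {l : (ι → ℝ) →ₗ[ℝ] ℝ} (hl : Pos K l) (s : Finset (ι → ℝ))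
    (hs : ∀ v ∈ s, v ∈ K) :
    IsClosed (Submodule.span ℝ≥0 (s : Set (ι → ℝ)) : Set (ι → ℝ)) := by
  classical
  rw [← closure_subset_iff_isClosed]
  intro x hx
  have hlc : Continuous l := l.continuous_of_finiteDimensional
  set M := l x + 1 with hM
  set Φ : ((ι → ℝ) → ℝ) → (ι → ℝ) := fun c => ∑ v ∈ s, c v • v with hΦ
  have hΦc : Continuous Φ := by
    refine continuous_finsetSum _ fun v _ => ?_
    exact (continuous_apply v).smul continuous_const
  set Box : Set ((ι → ℝ) → ℝ) := Set.pi Set.univ fun v => Set.Icc 0 (max 0 (M / l v)) with hBox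
  have hBoxc : IsCompact Box := isCompact_univ_pi fun v => isCompact_Icc
  have hC : IsCompact (Φ '' Box) := hBoxc.image hΦc
  have hCsub : Φ '' Box ⊆ (Submodule.span ℝ≥0 (s : Set (ι → ℝ)) : Set (ι → ℝ)) := by
    rintro _ ⟨c, hc, rfl⟩
    exact sum_mem' _ s c id (fun v _ => (hc v (Set.mem_univ v)).1)
      (fun v hv => Submodule.subset_span hv)
  have hsub : (Submodule.span ℝ≥0 (s : Set (ι → ℝ)) : Set (ι → ℝ)) ∩ {y | l y < M} ⊆
      Φ '' Box := by
    rintro y ⟨hy, hyM⟩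
    obtain ⟨c, hc, rfl⟩ := exists_coeff hy
    refine ⟨fun v => if v ∈ s ∧ v ≠ 0 then c v else 0, ?_, ?_⟩
    · intro v _
      simp only
      split_ifs with h
      · refine ⟨hc v, le_max_of_le_right ?_⟩
        have h1 := hl v (hs v h.1) h.2
        rw [le_div_iff₀ h1]
        have h2 : c v * l v ≤ l (∑ v ∈ s, c v • v) := by
          rw [map_sum]
          simp only [map_smul, smul_eq_mul]
          exact Finset.single_le_sum (f := fun v => c v * l v)
            (fun v hv => mul_nonneg (hc v) (hl.nonneg (hs v hv))) h.1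
        exact h2.trans (le_of_lt hyM)
      · exact ⟨le_rfl, le_max_left _ _⟩
    · simp only [hΦ]
      refine Finset.sum_congr rfl fun v hv => ?_
      by_cases h0 : v = 0
      · rw [h0, smul_zero, smul_zero]
      · rw [if_pos ⟨hv, h0⟩]
  have h1 : x ∈ closure ((Submodule.span ℝ≥0 (s : Set (ι → ℝ)) : Set (ι → ℝ)) ∩
      {y | l y < M}) := by
    have ho : IsOpen {y | l y < M} := isOpen_lt hlc continuous_const
    have hxM : x ∈ {y | l y < M} := by
      show l x < M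
      linarith
    rw [mem_closure_iff] at hx ⊢
    intro U hU hxU
    obtain ⟨z, hz, hz'⟩ := hx (U ∩ {y | l y < M}) (hU.inter ho) ⟨hxU, hxM⟩
    exact ⟨z, hz.1, hz', hz.2⟩
  have h2 := closure_mono hsub h1
  rw [hC.isClosed.closure_eq] at h2
  exact hCsub h2

/-- The part of a rational polyhedral cone in the domain is rational polyhedral. -/
theorem claimD (h : Good K ρ) {l : (ι → ℝ) →ₗ[ℝ] ℝ} (hl : IntForm l) (hlp : Pos K l)
    {s : Finset (ι → ℝ)} (hs : ∀ v ∈ s, IsInt v ∧ v ∈ K) :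
    ∃ t : Finset (ι → ℝ), (∀ v ∈ t, IsInt v) ∧
      ∀ x, x ∈ Submodule.span ℝ≥0 (t : Set (ι → ℝ)) ↔
        x ∈ Submodule.span ℝ≥0 (s : Set (ι → ℝ)) ∧ InDom ρ l x := by
  classical
  obtain ⟨T, hT⟩ := minima h hl hlp s hs
  obtain ⟨t, ht, ht'⟩ := halfspaces s (fun v hv => (hs v hv).1)
    (T.image fun a => l ∘ₗ ρ a - l) (fun m hm => by
      obtain ⟨a, -, rfl⟩ := Finset.mem_image.1 hm
      intro x hx
      obtain ⟨u, hu⟩ := hl _ (h.int a x hx)
      obtain ⟨w, hw⟩ := hl _ hx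
      refine ⟨u - w, ?_⟩
      rw [LinearMap.sub_apply, LinearMap.comp_apply, hu, hw]
      push_cast
      ring)
  refine ⟨t, ht, fun x => ?_⟩
  rw [ht']
  refine and_congr_right fun hx => ⟨fun h1 a => ?_, fun h1 m hm => ?_⟩
  · obtain ⟨b, hb, hba⟩ := hT a
    have h2 := h1 _ (Finset.mem_image_of_mem _ hb)
    rw [LinearMap.sub_apply, LinearMap.comp_apply, sub_nonneg] at h2
    exact h2.trans (minima_cone hba hx)
  · obtain ⟨a, -, rfl⟩ := Finset.mem_image.1 hm
    rw [LinearMap.sub_apply, LinearMap.comp_apply, sub_nonneg]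
    exact h1 a

/-- **Looijenga's theorem.** If the translates of a rational polyhedral cone cover the interior of
`K`, then there is a rational polyhedral fundamental domain for the action on the convex hull of
the rational points of `K`. -/
theorem looijenga (h : Good K ρ) {s : Finset (ι → ℝ)} (hs : ∀ v ∈ s, IsInt v ∧ v ∈ K)
    (hcov : ∀ x ∈ interior (K : Set (ι → ℝ)), ∃ a,
      ∃ y ∈ Submodule.span ℝ≥0 (s : Set (ι → ℝ)), x = ρ a y) :
    ∃ t : Finset (ι → ℝ), (∀ v ∈ t, IsInt v ∧ v ∈ K) ∧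
      (∀ v ∈ t, ∃ a, ∃ y ∈ Submodule.span ℝ≥0 (s : Set (ι → ℝ)), v = ρ a y) ∧
      (∀ x ∈ Kp K, ∃ a, ∃ y ∈ Submodule.span ℝ≥0 (t : Set (ι → ℝ)), x = ρ a y) ∧
      ∀ a, (interior (Submodule.span ℝ≥0 (t : Set (ι → ℝ)) : Set (ι → ℝ)) ∩
        ρ a '' interior (Submodule.span ℝ≥0 (t : Set (ι → ℝ)) : Set (ι → ℝ))).Nonempty →
        ρ a = 1 := by
  classical
  obtain ⟨l, hl, hlp, hts⟩ := exists_ts h
  have hfin := claimC h hl hlp hts hs
  -- finitely many group elements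
  obtain ⟨F, hF⟩ : ∃ F : Finset A, ∀ x ∈ interior (K : Set (ι → ℝ)), InDom ρ l x →
      ∃ a ∈ F, ∃ y ∈ Submodule.span ℝ≥0 (s : Set (ι → ℝ)), x = ρ a y := by
    have hpre : ∀ f ∈ {f : Module.End ℝ (ι → ℝ) | ∃ a, ρ a = f ∧
        ∃ y ∈ Submodule.span ℝ≥0 (s : Set (ι → ℝ)), y ∈ interior (K : Set (ι → ℝ)) ∧
          InDom ρ l (f y)}, ∃ a, ρ a = f := fun f hf => ⟨hf.choose, hf.choose_spec.1⟩
    choose! g hg using hpre
    refine ⟨(hfin.image g).toFinset, fun x hx hdom => ?_⟩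
    obtain ⟨a, y, hy, hxy⟩ := hcov x hx
    have hyK : y ∈ interior (K : Set (ι → ℝ)) := by
      have := h.interior a⁻¹ hx
      rwa [hxy, inv_apply] at this
    have hmem : ρ a ∈ {f : Module.End ℝ (ι → ℝ) | ∃ a, ρ a = f ∧
        ∃ y ∈ Submodule.span ℝ≥0 (s : Set (ι → ℝ)), y ∈ interior (K : Set (ι → ℝ)) ∧
          InDom ρ l (f y)} := ⟨a, rfl, y, hy, hyK, by rwa [← hxy]⟩
    refine ⟨g (ρ a), (hfin.image g).mem_toFinset.2 (Set.mem_image_of_mem g hmem), y, hy, ?_⟩
    rw [hg _ hmem, hxy]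
  -- the pieces
  have hpiece : ∀ a : A, ∃ t : Finset (ι → ℝ), (∀ v ∈ t, IsInt v) ∧
      ∀ x, x ∈ Submodule.span ℝ≥0 (t : Set (ι → ℝ)) ↔
        (∃ y ∈ Submodule.span ℝ≥0 (s : Set (ι → ℝ)), x = ρ a y) ∧ InDom ρ l x := by
    intro a
    obtain ⟨t, ht, ht'⟩ := claimD (s := s.image (ρ a)) h hl hlp (fun v hv => by
      obtain ⟨w, hw, rfl⟩ := Finset.mem_image.1 hv
      exact ⟨h.int a w (hs w hw).1, h.pres a w (hs w hw).2⟩)
    refine ⟨t, ht, fun x => ?_⟩
    rw [ht']
    refine and_congr_left fun _ => ⟨fun hx => ?_, ?_⟩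
    · obtain ⟨c, hc, rfl⟩ := exists_coeff hx
      refine ⟨ρ a⁻¹ (∑ v ∈ s.image (ρ a), c v • v), ?_, by rw [apply_inv]⟩
      rw [map_sum]
      refine Submodule.sum_mem _ fun v hv => ?_
      obtain ⟨w, hw, rfl⟩ := Finset.mem_image.1 hv
      rw [map_smul, inv_apply]
      exact smul_mem' _ (hc _) (Submodule.subset_span hw)
    · rintro ⟨y, hy, rfl⟩
      obtain ⟨c, hc, rfl⟩ := exists_coeff hy
      rw [map_sum]
      refine Submodule.sum_mem _ fun v hv => ?_
      rw [map_smul]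
      exact smul_mem' _ (hc _) (Submodule.subset_span (by
        rw [Finset.mem_coe]; exact Finset.mem_image_of_mem _ hv))
  choose t ht ht' using hpiece
  set S := F.biUnion t with hS
  have hSK : ∀ v ∈ S, IsInt v ∧ v ∈ K ∧ InDom ρ l v ∧
      ∃ a, ∃ y ∈ Submodule.span ℝ≥0 (s : Set (ι → ℝ)), v = ρ a y := by
    intro v hv
    obtain ⟨a, -, hva⟩ := Finset.mem_biUnion.1 hv
    obtain ⟨⟨y, hy, hvy⟩, hdom⟩ := (ht' a v).1 (Submodule.subset_span hva)
    refine ⟨ht a v hva, ?_, hdom, a, y, hy, hvy⟩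
    rw [hvy]
    exact h.pres a y (Submodule.span_le.2 (fun w hw => (hs w hw).2) hy)
  let W : Submodule ℝ≥0 (ι → ℝ) :=
    { carrier := {x | x ∈ K ∧ InDom ρ l x}
      add_mem' := fun {a b} ha hb => ⟨K.add_mem ha.1 hb.1, fun g => by
        rw [map_add, map_add, map_add]; exact add_le_add (ha.2 g) (hb.2 g)⟩
      zero_mem' := ⟨K.zero_mem, fun g => by rw [map_zero (ρ g)]⟩
      smul_mem' := fun c a ha => ⟨K.smul_mem c ha.1, fun g => by
        rw [NNReal.smul_def, map_smul, map_smul, map_smul, smul_eq_mul, smul_eq_mul]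
        exact mul_le_mul_of_nonneg_left (ha.2 g) c.2⟩ }
  have hSW : Submodule.span ℝ≥0 (S : Set (ι → ℝ)) ≤ W :=
    Submodule.span_le.2 fun v hv => ⟨(hSK v hv).2.1, (hSK v hv).2.2.1⟩
  have hcl : IsClosed (Submodule.span ℝ≥0 (S : Set (ι → ℝ)) : Set (ι → ℝ)) :=
    closed_span hlp S fun v hv => (hSK v hv).2.1
  -- the domain
  have hdomS : ∀ x ∈ K, InDom ρ l x → x ∈ Submodule.span ℝ≥0 (S : Set (ι → ℝ)) := by
    have hint : ∀ x ∈ interior (K : Set (ι → ℝ)), InDom ρ l x →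
        x ∈ Submodule.span ℝ≥0 (S : Set (ι → ℝ)) := by
      intro x hx hdom
      obtain ⟨a, ha, y, hy, hxy⟩ := hF x hx hdom
      have h1 := (ht' a x).2 ⟨⟨y, hy, hxy⟩, hdom⟩
      refine Submodule.span_mono ?_ h1
      intro v hv
      rw [Finset.mem_coe] at hv ⊢
      exact Finset.mem_biUnion.2 ⟨a, ha, hv⟩
    intro x hx hdom
    obtain ⟨p, hp, hpK⟩ := exists_int h.ne
    obtain ⟨b, hb⟩ := exists_inDom h hl hlp (x := p)
      (Submodule.subset_span ⟨interior_subset hpK, hp⟩)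
    have hyK := h.interior b hpK
    set y := ρ b p with hy
    have hlim : Filter.Tendsto (fun n : ℕ => x + (1 / ((n : ℝ) + 1)) • y) Filter.atTop
        (nhds x) := by
      have h1 : Filter.Tendsto (fun n : ℕ => (1 / ((n : ℝ) + 1))) Filter.atTop (nhds 0) :=
        tendsto_one_div_add_atTop_nhds_zero_nat
      have h2 := (h1.smul_const y).const_add x
      rwa [zero_smul, add_zero] at h2
    refine hcl.mem_of_tendsto hlim (Filter.Eventually.of_forall fun n => hint _ ?_ ?_)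
    · rw [add_comm]
      exact add_interior (smul_interior (by positivity) hyK) hx
    · exact W.add_mem ⟨hx, hdom⟩ (smul_mem' W (by positivity) ⟨interior_subset hyK, hb⟩) |>.2
  refine ⟨S, fun v hv => ⟨(hSK v hv).1, (hSK v hv).2.1⟩, fun v hv => (hSK v hv).2.2.2,
    fun x hx => ?_, fun a ha => ?_⟩
  · obtain ⟨a, ha⟩ := exists_inDom h hl hlp hx
    refine ⟨a⁻¹, ρ a x, hdomS _ (h.pres a x (Kp_le hx)) ha, ?_⟩
    rw [inv_apply]
  · obtain ⟨z, hz1, w, hw, hzw⟩ := ha
    set U := interior (Submodule.span ℝ≥0 (S : Set (ι → ℝ)) : Set (ι → ℝ)) ∩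
      (ρ a⁻¹) ⁻¹' interior (Submodule.span ℝ≥0 (S : Set (ι → ℝ)) : Set (ι → ℝ)) with hU
    have hUo : IsOpen U := isOpen_interior.inter
      (isOpen_interior.preimage (ρ a⁻¹).continuous_of_finiteDimensional)
    have hzU : z ∈ U := ⟨hz1, by rw [Set.mem_preimage, ← hzw, inv_apply]; exact hw⟩
    have hzero : ∀ x ∈ U, (l ∘ₗ ρ a⁻¹ - l) x = 0 := by
      rintro x ⟨hx1, hx2⟩
      have h1 := (hSW (interior_subset hx1)).2 a⁻¹
      have h2 := (hSW (interior_subset hx2)).2 a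
      rw [apply_inv] at h2
      rw [LinearMap.sub_apply, LinearMap.comp_apply]
      linarith
    have hall : l ∘ₗ ρ a⁻¹ = l := by
      rw [← sub_eq_zero]
      apply LinearMap.ext
      intro v
      rw [LinearMap.zero_apply]
      obtain ⟨δ, hδ, hball⟩ := Metric.isOpen_iff.1 hUo z hzU
      have hlim : ∃ c : ℝ, 0 < c ∧ z + c • v ∈ U := by
        refine ⟨δ / (2 * (‖v‖ + 1)), by positivity, hball ?_⟩
        rw [Metric.mem_ball, dist_eq_norm, add_sub_cancel_left, norm_smul,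
          Real.norm_of_nonneg (by positivity)]
        have h3 : 0 ≤ ‖v‖ := norm_nonneg v
        rw [div_mul_eq_mul_div, div_lt_iff₀ (by positivity)]
        nlinarith
      obtain ⟨c, hc, hcU⟩ := hlim
      have h1 := hzero _ hcU
      rw [map_add, hzero z hzU, zero_add, map_smul, smul_eq_mul] at h1
      exact (mul_eq_zero.1 h1).resolve_left hc.ne'
    have h1 := hts _ hall
    calc ρ a = ρ a * ρ a⁻¹ := by rw [h1, mul_one]
      _ = 1 := by rw [← map_mul, mul_inv_cancel, map_one]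

end Pool.Agent.E8helper40.CC
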