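import Pool.Agent.E8helper40.CC.Basic

/-!
# Integral forms which are positive on a closed salient cone
-/

set_option autoImplicit false
set_option linter.unusedSectionVars false

open scoped NNReal

namespace Pool.Agent.E8helper40.CC

variable {ι : Type} [Fintype ι]

/-- The form `l` is positive on the non-zero elements of `K`. -/
def Pos (K : Submodule ℝ≥0 (ι → ℝ)) (l : (ι → ℝ) →ₗ[ℝ] ℝ) : Prop := ∀ x ∈ K, x ≠ 0 → 0 < l x

section

variable {K : Submodule ℝ≥0 (ι → ℝ)}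

theorem Pos.nonneg {l : (ι → ℝ) →ₗ[ℝ] ℝ} (h : Pos K l) {x : ι → ℝ} (hx : x ∈ K) : 0 ≤ l x := by
  by_cases h0 : x = 0
  · rw [h0, map_zero]
  · exact (h x hx h0).le

theorem form_apply (l : (ι → ℝ) →ₗ[ℝ] ℝ) [DecidableEq ι] (x : ι → ℝ) :
    l x = ∑ i, x i * l (Pi.single i 1) := by
  conv_lhs => rw [← Finset.univ_sum_single x]
  rw [map_sum]
  refine Finset.sum_congr rfl fun i _ => ?_
  have : (Pi.single i (x i) : ι → ℝ) = x i • Pi.single i 1 := by
    rw [← Pi.single_smul, smul_eq_mul, mul_one]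
  rw [this, map_smul, smul_eq_mul]

/-- The form with given coefficients. -/
noncomputable def mkForm (c : ι → ℝ) : (ι → ℝ) →ₗ[ℝ] ℝ :=
  ∑ i, c i • (LinearMap.proj i : (ι → ℝ) →ₗ[ℝ] ℝ)

theorem mkForm_apply (c x : ι → ℝ) : mkForm c x = ∑ i, c i * x i := by
  unfold mkForm
  rw [LinearMap.sum_apply]
  exact Finset.sum_congr rfl fun i _ => by simp

theorem mkForm_int (c : ι → ℤ) : IntForm (mkForm fun i => (c i : ℝ)) := by
  intro x hx
  choose m hm using hx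
  refine ⟨∑ i, c i * m i, ?_⟩
  rw [mkForm_apply]
  push_cast
  exact Finset.sum_congr rfl fun i _ => by rw [hm]

theorem proj_int (i : ι) : IntForm (LinearMap.proj i : (ι → ℝ) →ₗ[ℝ] ℝ) := fun _ hx => hx i

/-- A lower bound for positive forms. -/
theorem Pos.bound (hK : IsClosed (K : Set (ι → ℝ))) {l : (ι → ℝ) →ₗ[ℝ] ℝ} (h : Pos K l) :
    ∃ c : ℝ, 0 < c ∧ ∀ x ∈ K, c * ‖x‖ ≤ l x := by
  have hc : IsCompact ((K : Set (ι → ℝ)) ∩ Metric.sphere 0 1) :=
    (isCompact_sphere 0 1).inter_left hK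
  have hl : Continuous l := l.continuous_of_finiteDimensional
  obtain ⟨c, hc0, hc1⟩ : ∃ c : ℝ, 0 < c ∧ ∀ x ∈ (K : Set (ι → ℝ)) ∩ Metric.sphere 0 1, c ≤ l x := by
    rcases ((K : Set (ι → ℝ)) ∩ Metric.sphere 0 1).eq_empty_or_nonempty with h0 | h0
    · exact ⟨1, one_pos, fun x hx => by rw [h0] at hx; exact absurd hx (Set.notMem_empty _)⟩
    · obtain ⟨y, hy, hy'⟩ := hc.exists_isMinOn h0 hl.continuousOn
      refine ⟨l y, h y hy.1 ?_, fun x hx => hy' hx⟩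
      rintro rfl
      have := hy.2
      simp at this
  refine ⟨c, hc0, fun x hx => ?_⟩
  by_cases h0 : x = 0
  · rw [h0]; simp
  · have hn : 0 < ‖x‖ := norm_pos_iff.2 h0
    have h1 := hc1 (‖x‖⁻¹ • x) ⟨smul_mem' K (inv_nonneg.2 hn.le) hx, by
      rw [Metric.mem_sphere, dist_zero_right, norm_smul, norm_inv, norm_norm,
        inv_mul_cancel₀ hn.ne']⟩
    rw [map_smul, smul_eq_mul, ← div_eq_inv_mul, le_div_iff₀ hn] at h1
    exact h1

/-- Existence of a positive form. -/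
theorem exists_pos_real (hK : IsClosed (K : Set (ι → ℝ))) (hs : ∀ x ∈ K, -x ∈ K → x = 0) :
    ∃ l : (ι → ℝ) →ₗ[ℝ] ℝ, Pos K l := by
  classical
  have hc : IsCompact ((K : Set (ι → ℝ)) ∩ Metric.sphere 0 1) :=
    (isCompact_sphere 0 1).inter_left hK
  have hconv : Convex ℝ (K : Set (ι → ℝ)) := by
    rw [convex_iff_forall_pos]
    intro x hx y hy a b ha hb _
    exact K.add_mem (smul_mem' K ha.le hx) (smul_mem' K hb.le hy)
  have h1 : ∀ x : ι → ℝ, ∃ f : (ι → ℝ) →L[ℝ] ℝ, (∀ y ∈ K, 0 ≤ f y) ∧ (x ∈ K → x ≠ 0 → 0 < f x) := by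
    intro x
    by_cases hx : x ∈ K ∧ x ≠ 0
    · obtain ⟨f, u, hfu, hf⟩ := geometric_hahn_banach_point_closed hconv hK (x := -x)
        (fun h => hx.2 (hs x hx.1 h))
      have hu : u < 0 := by simpa using hf 0 K.zero_mem
      refine ⟨f, fun y hy => ?_, fun _ _ => ?_⟩
      · by_contra hneg
        push Not at hneg
        have h2 := hf ((u / f y) • y) (smul_mem' K (div_nonneg_of_nonpos hu.le hneg.le) hy)
        rw [map_smul, smul_eq_mul, div_mul_cancel₀ _ hneg.ne] at h2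
        exact lt_irrefl _ h2
      · rw [map_neg] at hfu
        linarith
    · exact ⟨0, fun y _ => le_rfl, fun h h' => absurd ⟨h, h'⟩ hx⟩
  choose f hf hf' using h1
  obtain ⟨t, ht, hcov⟩ := hc.elim_nhds_subcover (fun x => {y | 0 < f x y}) (fun x hx =>
    (isOpen_lt continuous_const (f x).continuous).mem_nhds (hf' x hx.1 (by
      rintro rfl
      have := hx.2
      simp at this)))
  refine ⟨∑ x ∈ t, (f x : (ι → ℝ) →ₗ[ℝ] ℝ), fun x hx hx0 => ?_⟩
  have hn : 0 < ‖x‖ := norm_pos_iff.2 hx0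
  have h2 : ‖x‖⁻¹ • x ∈ (K : Set (ι → ℝ)) ∩ Metric.sphere 0 1 :=
    ⟨smul_mem' K (inv_nonneg.2 hn.le) hx, by
      rw [Metric.mem_sphere, dist_zero_right, norm_smul, norm_inv, norm_norm,
        inv_mul_cancel₀ hn.ne']⟩
  obtain ⟨z, hz, hz'⟩ := Set.mem_iUnion₂.1 (hcov h2)
  rw [LinearMap.sum_apply]
  refine Finset.sum_pos' (fun y _ => hf y x hx) ⟨z, hz, ?_⟩
  have h3 : 0 < f z (‖x‖⁻¹ • x) := hz'
  rw [map_smul, smul_eq_mul] at h3
  exact (pos_iff_pos_of_mul_pos h3).1 (inv_pos.2 hn)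

/-- Existence of a positive integral form. -/
theorem exists_pos (hK : IsClosed (K : Set (ι → ℝ))) (hs : ∀ x ∈ K, -x ∈ K → x = 0) :
    ∃ l : (ι → ℝ) →ₗ[ℝ] ℝ, IntForm l ∧ Pos K l := by
  classical
  obtain ⟨f, hf⟩ := exists_pos_real hK hs
  obtain ⟨u, hfu, hu⟩ := hf.bound hK
  obtain ⟨N, hN⟩ := exists_nat_gt ((Fintype.card ι : ℝ) / u)
  rw [div_lt_iff₀ hfu] at hN
  refine ⟨mkForm fun i => ((⌊N * f (Pi.single i 1)⌋ : ℤ) : ℝ), mkForm_int _, fun x hx hx0 => ?_⟩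
  have hn : 0 < ‖x‖ := norm_pos_iff.2 hx0
  have h1 : u * ‖x‖ ≤ f x := hu x hx
  have h2 : N * f x - (mkForm fun i => ((⌊N * f (Pi.single i 1)⌋ : ℤ) : ℝ)) x ≤
      Fintype.card ι * ‖x‖ := by
    have e1 : f x = ∑ i, x i * f (Pi.single i 1) := form_apply f x
    rw [e1, mkForm_apply, Finset.mul_sum, ← Finset.sum_sub_distrib]
    have e2 : ∀ i ∈ Finset.univ, (N : ℝ) * (x i * f (Pi.single i 1)) -
        ((⌊N * f (Pi.single i 1)⌋ : ℤ) : ℝ) * x i ≤ ‖x‖ := by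
      intro i _
      have e3 : (N : ℝ) * (x i * f (Pi.single i 1)) - ((⌊N * f (Pi.single i 1)⌋ : ℤ) : ℝ) * x i =
          Int.fract (N * f (Pi.single i 1)) * x i := by
        rw [Int.fract]; ring
      rw [e3]
      have h3 := Int.fract_nonneg (N * f (Pi.single i 1))
      have h4 := (Int.fract_lt_one (N * f (Pi.single i 1))).le
      have h5 : x i ≤ ‖x‖ := (le_abs_self _).trans (norm_le_pi_norm x i)
      have h6 : 0 ≤ ‖x‖ := norm_nonneg x
      calc Int.fract (N * f (Pi.single i 1)) * x i ≤ Int.fract (N * f (Pi.single i 1)) * ‖x‖ :=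
            mul_le_mul_of_nonneg_left h5 h3
        _ ≤ 1 * ‖x‖ := mul_le_mul_of_nonneg_right h4 h6
        _ = ‖x‖ := one_mul _
    refine (Finset.sum_le_sum e2).trans ?_
    rw [Finset.sum_const, nsmul_eq_mul, Finset.card_univ]
  have h3 : Fintype.card ι * ‖x‖ < N * u * ‖x‖ := mul_lt_mul_of_pos_right hN hn
  have h4 : (N : ℝ) * (u * ‖x‖) ≤ N * f x := mul_le_mul_of_nonneg_left h1 (Nat.cast_nonneg N)
  nlinarith

theorem finite_int (R : ℝ) : {x : ι → ℝ | IsInt x ∧ ‖x‖ ≤ R}.Finite := by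
  classical
  refine Set.Finite.subset ((Set.finite_Icc (fun _ : ι => -⌈R⌉) (fun _ => ⌈R⌉)).image
    (fun z i => ((z i : ℤ) : ℝ))) ?_
  rintro x ⟨hx, hR⟩
  choose m hm using hx
  refine ⟨m, ?_, funext fun i => (hm i).symm⟩
  have h1 : ∀ i, |(m i : ℝ)| ≤ R := fun i => by
    rw [← hm]; exact (norm_le_pi_norm x i).trans hR
  rw [Set.mem_Icc]
  refine ⟨fun i => ?_, fun i => ?_⟩
  · have h2 : -(⌈R⌉ : ℝ) ≤ (m i : ℝ) := by
      have := (abs_le.1 (h1 i)).1
      have := Int.le_ceil R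
      linarith
    have h3 : ((-⌈R⌉ : ℤ) : ℝ) ≤ (m i : ℝ) := by push_cast; exact h2
    exact_mod_cast h3
  · have h2 : (m i : ℝ) ≤ (⌈R⌉ : ℝ) := by
      have := (abs_le.1 (h1 i)).2
      have := Int.le_ceil R
      linarith
    exact_mod_cast h2

theorem Pos.finite (hK : IsClosed (K : Set (ι → ℝ))) {l : (ι → ℝ) →ₗ[ℝ] ℝ} (h : Pos K l)
    (B : ℝ) : {x : ι → ℝ | IsInt x ∧ x ∈ K ∧ l x ≤ B}.Finite := by
  obtain ⟨c, hc, hc'⟩ := h.bound hK
  refine (finite_int (ι := ι) (B / c)).subset ?_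
  rintro x ⟨hx, hxK, hB⟩
  refine ⟨hx, ?_⟩
  rw [le_div_iff₀ hc, mul_comm]
  exact (hc' x hxK).trans hB

theorem smul_interior {c : ℝ} (hc : 0 < c) {x : ι → ℝ} (hx : x ∈ interior (K : Set (ι → ℝ))) :
    c • x ∈ interior (K : Set (ι → ℝ)) := by
  rw [mem_interior] at hx ⊢
  obtain ⟨t, ht, ho, hxt⟩ := hx
  refine ⟨(fun y => c • y) '' t, ?_, (Homeomorph.smulOfNeZero c hc.ne').isOpenMap t ho,
    ⟨x, hxt, rfl⟩⟩
  rintro _ ⟨y, hy, rfl⟩
  exact smul_mem' K hc.le (ht hy)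

theorem add_interior {x y : ι → ℝ} (hx : x ∈ interior (K : Set (ι → ℝ))) (hy : y ∈ K) :
    x + y ∈ interior (K : Set (ι → ℝ)) := by
  rw [mem_interior] at hx ⊢
  obtain ⟨t, ht, ho, hxt⟩ := hx
  refine ⟨(fun z => z + y) '' t, ?_, (Homeomorph.addRight y).isOpenMap t ho, ⟨x, hxt, rfl⟩⟩
  rintro _ ⟨z, hz, rfl⟩
  exact K.add_mem (ht hz) hy

/-- There are integral points in the interior of the cone. -/
theorem exists_int (h : (interior (K : Set (ι → ℝ))).Nonempty) :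
    ∃ p : ι → ℝ, IsInt p ∧ p ∈ interior (K : Set (ι → ℝ)) := by
  obtain ⟨x, hx⟩ := h
  obtain ⟨δ, hδ, hball⟩ := Metric.isOpen_iff.1 isOpen_interior x hx
  obtain ⟨N, hN⟩ := exists_nat_gt (1 / δ)
  have hN0 : (0 : ℝ) < N := (by positivity : (0 : ℝ) < 1 / δ).trans hN
  refine ⟨fun i => ((⌊N * x i⌋ : ℤ) : ℝ), fun i => ⟨_, rfl⟩, ?_⟩
  have h1 : (fun i => ((⌊N * x i⌋ : ℤ) : ℝ)) = (N : ℝ) • fun i => ((⌊N * x i⌋ : ℤ) : ℝ) / N := by
    funext i
    simp only [Pi.smul_apply, smul_eq_mul]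
    rw [mul_div_cancel₀ _ hN0.ne']
  rw [h1]
  refine smul_interior hN0 (hball ?_)
  rw [Metric.mem_ball, dist_pi_lt_iff hδ]
  intro i
  rw [Real.dist_eq]
  have h2 : ((⌊N * x i⌋ : ℤ) : ℝ) / N - x i = -(Int.fract (N * x i) / N) := by
    rw [Int.fract]
    field_simp
    ring
  rw [h2, abs_neg, abs_of_nonneg (div_nonneg (Int.fract_nonneg _) hN0.le)]
  calc Int.fract (N * x i) / N < 1 / N :=
        (div_lt_div_iff_of_pos_right hN0).2 (Int.fract_lt_one _)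
    _ < δ := by rw [div_lt_iff₀ hN0]; rw [div_lt_iff₀ hδ] at hN; linarith

/-- Finitely many integral points of the cone which span the space. -/
theorem exists_pts (h : (interior (K : Set (ι → ℝ))).Nonempty) :
    ∃ P : Finset (ι → ℝ), (∀ p ∈ P, IsInt p ∧ p ∈ K) ∧
      ∀ f g : Module.End ℝ (ι → ℝ), (∀ p ∈ P, f p = g p) → f = g := by
  classical
  obtain ⟨p, hp, hpK⟩ := exists_int h
  obtain ⟨δ, hδ, hball⟩ := Metric.isOpen_iff.1 isOpen_interior p hpK
  obtain ⟨N, hN⟩ := exists_nat_gt (1 / δ)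
  have hN0 : (0 : ℝ) < N := (by positivity : (0 : ℝ) < 1 / δ).trans hN
  refine ⟨insert p (Finset.univ.image fun i => (N : ℝ) • p + Pi.single i 1), ?_, ?_⟩
  · intro q hq
    rw [Finset.mem_insert, Finset.mem_image] at hq
    rcases hq with rfl | ⟨i, -, rfl⟩
    · exact ⟨hp, interior_subset hpK⟩
    · refine ⟨(hp.smul_nat N).add (by simpa using IsInt.single i 1), ?_⟩
      have h1 : (N : ℝ) • p + (Pi.single i 1 : ι → ℝ) =
          (N : ℝ) • (p + (N : ℝ)⁻¹ • (Pi.single i 1 : ι → ℝ)) := by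
        rw [smul_add, smul_smul, mul_inv_cancel₀ hN0.ne', one_smul]
      rw [h1]
      refine smul_mem' K hN0.le (interior_subset (hball ?_))
      rw [Metric.mem_ball, dist_eq_norm, add_sub_cancel_left, norm_smul, norm_inv, Pi.norm_single,
        norm_one, mul_one, Real.norm_of_nonneg hN0.le]
      rw [div_lt_iff₀ hδ] at hN
      rw [inv_lt_iff_one_lt_mul₀ hN0, mul_comm]
      exact hN
  · intro f g hfg
    have h0 := hfg p (Finset.mem_insert_self _ _)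
    have h1 : ∀ i, f (Pi.single i 1) = g (Pi.single i 1) := by
      intro i
      have h2 := hfg _ (Finset.mem_insert_of_mem (Finset.mem_image_of_mem _ (Finset.mem_univ i)))
      rw [map_add, map_add, map_smul, map_smul, h0] at h2
      exact add_left_cancel h2
    refine LinearMap.pi_ext' fun i => LinearMap.ext_ring ?_
    simpa using h1 i

end

end Pool.Agent.E8helper40.CC
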