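import Pool.Agent.E8helper40.CC.Form

/-!
# Rational polyhedral fundamental domains
-/

set_option autoImplicit false
set_option linter.unusedSectionVars false

open scoped NNReal

namespace Pool.Agent.E8helper40.CC

variable {ι : Type} [Fintype ι] {K : Submodule ℝ≥0 (ι → ℝ)} {A : Type} [Group A]
  {ρ : A →* Module.End ℝ (ι → ℝ)}

/-- A group acting on a closed salient cone with non-empty interior and preserving the integral
vectors. -/
structure Good (K : Submodule ℝ≥0 (ι → ℝ)) (ρ : A →* Module.End ℝ (ι → ℝ)) : Prop where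
  closed : IsClosed (K : Set (ι → ℝ))
  salient : ∀ x ∈ K, -x ∈ K → x = 0
  ne : (interior (K : Set (ι → ℝ))).Nonempty
  int : ∀ a x, IsInt x → IsInt (ρ a x)
  pres : ∀ a, ∀ x ∈ K, ρ a x ∈ K

/-- The convex hull of the rational points of `K`. -/
def Kp (K : Submodule ℝ≥0 (ι → ℝ)) : Submodule ℝ≥0 (ι → ℝ) :=
  Submodule.span ℝ≥0 {v | v ∈ K ∧ IsInt v}

theorem Kp_le : Kp K ≤ K := Submodule.span_le.2 fun _ hv => hv.1

theorem inv_apply (a : A) (x : ι → ℝ) : ρ a⁻¹ (ρ a x) = x := by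
  rw [← Module.End.mul_apply, ← map_mul, inv_mul_cancel, map_one, Module.End.one_apply]

theorem apply_inv (a : A) (x : ι → ℝ) : ρ a (ρ a⁻¹ x) = x := by
  rw [← Module.End.mul_apply, ← map_mul, mul_inv_cancel, map_one, Module.End.one_apply]

theorem Good.interior (h : Good K ρ) (a : A) {x : ι → ℝ}
    (hx : x ∈ _root_.interior (K : Set (ι → ℝ))) : ρ a x ∈ _root_.interior (K : Set (ι → ℝ)) := by
  rw [mem_interior] at hx ⊢
  obtain ⟨t, ht, ho, hxt⟩ := hx
  refine ⟨(fun y => ρ a⁻¹ y) ⁻¹' t, ?_, ?_, ?_⟩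
  · intro y hy
    have := h.pres a _ (ht hy)
    rwa [apply_inv] at this
  · exact ho.preimage (ρ a⁻¹).continuous_of_finiteDimensional
  · rw [Set.mem_preimage, inv_apply]; exact hxt

theorem Good.kp (h : Good K ρ) (a : A) {x : ι → ℝ} (hx : x ∈ Kp K) : ρ a x ∈ Kp K := by
  unfold Kp at hx ⊢
  induction hx using Submodule.span_induction with
  | mem v hv => exact Submodule.subset_span ⟨h.pres a v hv.1, h.int a v hv.2⟩
  | zero => rw [map_zero]; exact Submodule.zero_mem _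
  | add x y _ _ hx hy => rw [map_add]; exact Submodule.add_mem _ hx hy
  | smul c x _ hx =>
    rw [NNReal.smul_def, map_smul]
    exact smul_mem' _ c.2 hx

/-! ### A form with trivial stabilizer -/

theorem finite_end (h : Good K ρ) {P : Finset (ι → ℝ)} (hP : ∀ p ∈ P, IsInt p ∧ p ∈ K)
    (hP' : ∀ f g : Module.End ℝ (ι → ℝ), (∀ p ∈ P, f p = g p) → f = g)
    {l : (ι → ℝ) →ₗ[ℝ] ℝ} (hl : Pos K l) (B : ℝ) :
    {f : Module.End ℝ (ι → ℝ) | ∃ a, ρ a = f ∧ ∀ p ∈ P, l (f p) ≤ B}.Finite := by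
  have h1 : (Set.pi Set.univ fun _ : P => {x : ι → ℝ | IsInt x ∧ x ∈ K ∧ l x ≤ B}).Finite :=
    Set.Finite.pi fun _ => hl.finite h.closed B
  refine Set.Finite.of_injOn (f := fun (f : Module.End ℝ (ι → ℝ)) (p : P) => f p) ?_ ?_ h1
  · rintro f ⟨a, rfl, hf⟩ p _
    exact ⟨h.int a _ (hP p p.2).1, h.pres a _ (hP p p.2).2, hf p p.2⟩
  · rintro f - g - hfg
    exact hP' f g fun p hp => congrFun hfg ⟨p, hp⟩

/-- The stabilizer of a form. -/
def Stab (ρ : A →* Module.End ℝ (ι → ℝ)) (l : (ι → ℝ) →ₗ[ℝ] ℝ) : Set (Module.End ℝ (ι → ℝ)) :=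
  {f | ∃ a, ρ a = f ∧ l ∘ₗ f = l}

theorem stab_finite (h : Good K ρ) {l : (ι → ℝ) →ₗ[ℝ] ℝ} (hl : Pos K l) :
    (Stab ρ l).Finite := by
  obtain ⟨P, hP, hP'⟩ := exists_pts h.ne
  refine (finite_end h hP hP' hl (∑ p ∈ P, l p)).subset ?_
  rintro f ⟨a, ha, hf⟩
  refine ⟨a, ha, fun p hp => ?_⟩
  have h1 : l (f p) = l p := LinearMap.congr_fun hf p
  rw [h1]
  exact Finset.single_le_sum (f := fun p => l p) (fun q hq => hl.nonneg (hP q hq).2) hp

theorem exists_ts (h : Good K ρ) : ∃ l : (ι → ℝ) →ₗ[ℝ] ℝ, IntForm l ∧ Pos K l ∧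
    ∀ a, l ∘ₗ ρ a = l → ρ a = 1 := by
  obtain ⟨l0, hl0, hl0'⟩ := exists_pos h.closed h.salient
  have key : ∀ (n : ℕ) (l : (ι → ℝ) →ₗ[ℝ] ℝ), IntForm l → Pos K l → (Stab ρ l).ncard = n →
      ∃ l : (ι → ℝ) →ₗ[ℝ] ℝ, IntForm l ∧ Pos K l ∧ ∀ a, l ∘ₗ ρ a = l → ρ a = 1 := by
    intro n
    induction n using Nat.strong_induction_on with
    | _ n ih =>
    intro l hl hlp hn
    by_cases hts : ∀ a, l ∘ₗ ρ a = l → ρ a = 1
    · exact ⟨l, hl, hlp, hts⟩
    push Not at hts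
    obtain ⟨a, ha, ha1⟩ := hts
    obtain ⟨x, hx⟩ : ∃ x, ρ a x ≠ x := by
      by_contra hcon
      push Not at hcon
      exact ha1 (LinearMap.ext hcon)
    obtain ⟨i, hi⟩ := Function.ne_iff.1 hx
    set η : (ι → ℝ) →ₗ[ℝ] ℝ := LinearMap.proj i with hη
    have hηa : η ∘ₗ ρ a ≠ η := fun hcon => hi (LinearMap.congr_fun hcon x)
    obtain ⟨c, hc, hcl⟩ := hlp.bound h.closed
    have hηl : ∀ x ∈ K, |η x| ≤ l x / c := by
      intro x hx
      rw [le_div_iff₀ hc, mul_comm]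
      refine (mul_le_mul_of_nonneg_left ?_ hc.le).trans (hcl x hx)
      exact norm_le_pi_norm x i
    obtain ⟨n0, hn0⟩ := exists_nat_gt (2 / c)
    have hn0' : (0 : ℝ) < n0 := (by positivity : (0 : ℝ) < 2 / c).trans hn0
    obtain ⟨P, hP, hP'⟩ := exists_pts h.ne
    set B := ∑ p ∈ P, 3 * l p with hB
    set E := {f : Module.End ℝ (ι → ℝ) | ∃ a, ρ a = f ∧ ∀ p ∈ P, l (f p) ≤ B} with hE
    have hEfin : E.Finite := finite_end h hP hP' hlp B
    set bad : Set ℕ := ⋃ f ∈ {f ∈ E | l ∘ₗ f ≠ l}, {m : ℕ | ((m : ℝ) • l + η) ∘ₗ f = (m : ℝ) • l + η}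
      with hbad
    have hbadfin : bad.Finite := by
      refine Set.Finite.biUnion (hEfin.subset fun f hf => hf.1) fun f hf => ?_
      refine Set.Subsingleton.finite ?_
      intro m hm m' hm'
      by_contra hne
      apply hf.2
      apply LinearMap.ext
      intro x
      have e1 := LinearMap.congr_fun hm x
      have e2 := LinearMap.congr_fun hm' x
      simp only [LinearMap.comp_apply, LinearMap.add_apply, LinearMap.smul_apply,
        smul_eq_mul] at e1 e2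
      have e3 : ((m : ℝ) - m') * (l (f x) - l x) = 0 := by linarith
      have e4 : ((m : ℝ) - m') ≠ 0 := by
        rw [sub_ne_zero]; exact_mod_cast hne
      have e5 := (mul_eq_zero.1 e3).resolve_left e4
      simp only [LinearMap.comp_apply]
      linarith
    obtain ⟨m, hm1, hm2⟩ : ∃ m, n0 ≤ m ∧ m ∉ bad := by
      obtain ⟨m, hm⟩ := ((Set.Ici_infinite n0).sdiff hbadfin).nonempty
      exact ⟨m, hm.1, hm.2⟩
    set l' : (ι → ℝ) →ₗ[ℝ] ℝ := (m : ℝ) • l + η with hl'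
    have hm0 : (n0 : ℝ) ≤ m := by exact_mod_cast hm1
    have hmp : (0 : ℝ) < m := hn0'.trans_le hm0
    have hbd : ∀ x ∈ K, (m : ℝ) / 2 * l x ≤ l' x ∧ l' x ≤ 3 * m / 2 * l x := by
      intro x hx
      have h1 := abs_le.1 (hηl x hx)
      have h2 : l x / c ≤ (m : ℝ) / 2 * l x := by
        rw [div_eq_inv_mul]
        refine mul_le_mul_of_nonneg_right ?_ (hlp.nonneg hx)
        have : 2 / c < m := hn0.trans_le hm0
        rw [div_lt_iff₀ hc] at this
        rw [inv_le_iff_one_le_mul₀ hc]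
        linarith
      have h3 : l' x = m * l x + η x := by
        simp [hl']
      rw [h3]
      constructor <;> linarith [h1.1, h1.2]
    have hsub : Stab ρ l' ⊆ Stab ρ l ∩ {f | η ∘ₗ f = η} := by
      rintro f ⟨b, rfl, hf⟩
      have hfE : ρ b ∈ E := by
        refine ⟨b, rfl, fun p hp => ?_⟩
        have h1 := (hbd _ (h.pres b p (hP p hp).2)).1
        have h2 := (hbd p (hP p hp).2).2
        have h3 : l' (ρ b p) = l' p := LinearMap.congr_fun hf p
        rw [h3] at h1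
        have h4 : l (ρ b p) ≤ 3 * l p := by
          have h5 := h1.trans h2
          have h6 : (m : ℝ) / 2 * l (ρ b p) ≤ (m : ℝ) / 2 * (3 * l p) := by linarith
          exact le_of_mul_le_mul_left h6 (by positivity)
        refine h4.trans ?_
        rw [hB]
        exact Finset.single_le_sum (f := fun p => 3 * l p)
          (fun q hq => mul_nonneg (by norm_num) (hlp.nonneg (hP q hq).2)) hp
      have hfl : l ∘ₗ ρ b = l := by
        by_contra hcon
        exact hm2 (Set.mem_biUnion (show ρ b ∈ {f ∈ E | l ∘ₗ f ≠ l} from ⟨hfE, hcon⟩) hf)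
      refine ⟨⟨b, rfl, hfl⟩, ?_⟩
      apply LinearMap.ext
      intro x
      have e1 := LinearMap.congr_fun hf x
      have e2 := LinearMap.congr_fun hfl x
      simp only [hl', LinearMap.comp_apply, LinearMap.add_apply, LinearMap.smul_apply,
        smul_eq_mul] at e1 e2 ⊢
      rw [e2] at e1
      linarith
    refine ih _ ?_ l' ?_ ?_ rfl
    · rw [← hn]
      refine Set.ncard_lt_ncard ?_ (stab_finite h hlp)
      refine ⟨fun f hf => (hsub hf).1, fun hcon => ?_⟩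
      exact hηa (hsub (hcon ⟨a, rfl, ha⟩)).2
    · intro x hx
      obtain ⟨u, hu⟩ := hl x hx
      obtain ⟨w, hw⟩ := proj_int i x hx
      refine ⟨m * u + w, ?_⟩
      simp only [hl', LinearMap.add_apply, LinearMap.smul_apply, smul_eq_mul]
      rw [hu, hη, hw]
      push_cast
      ring
    · intro x hx hx0
      have h1 := (hbd x hx).1
      have h2 := hlp x hx hx0
      have : 0 < (m : ℝ) / 2 * l x := by positivity
      linarith
  exact key _ l0 hl0 hl0' rfl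

/-! ### Dickson's lemma -/

theorem dickson {α κ : Type*} [Finite κ] (F : α → κ → ℕ) :
    ∃ T : Set α, T.Finite ∧ ∀ a, ∃ t ∈ T, F t ≤ F a := by
  classical
  set S := Set.range F with hS
  set M := {m | Minimal (fun f => f ∈ S) m} with hM
  have hMfin : M.Finite := by
    refine WellQuasiOrderedLE.finite_of_isAntichain ?_
    intro x hx y hy hxy hle
    exact hxy (hle.antisymm (hy.2 hx.1 hle))
  rcases isEmpty_or_nonempty α with h0 | h0
  · exact ⟨∅, Set.finite_empty, fun a => isEmptyElim a⟩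
  have hMS : ∀ m ∈ M, ∃ a, F a = m := fun m hm => hm.1
  choose! g hg using hMS
  refine ⟨g '' M, hMfin.image g, fun a => ?_⟩
  obtain ⟨m, hma, hm⟩ := exists_minimal_le_of_wellFoundedLT (fun f => f ∈ S) (F a) ⟨a, rfl⟩
  exact ⟨g m, Set.mem_image_of_mem g hm, by rw [hg m hm]; exact hma⟩

theorem minima (h : Good K ρ) {l : (ι → ℝ) →ₗ[ℝ] ℝ} (hl : IntForm l) (hlp : Pos K l)
    (s : Finset (ι → ℝ)) (hs : ∀ v ∈ s, IsInt v ∧ v ∈ K) :
    ∃ T : Finset A, ∀ a, ∃ t ∈ T, ∀ v ∈ s, l (ρ t v) ≤ l (ρ a v) := by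
  classical
  have h1 : ∀ (a : A) (v : s), ∃ n : ℕ, l (ρ a v) = n := by
    intro a v
    obtain ⟨m, hm⟩ := hl _ (h.int a _ (hs v v.2).1)
    have h2 := hlp.nonneg (h.pres a _ (hs v v.2).2)
    rw [hm] at h2
    have h3 : 0 ≤ m := by exact_mod_cast h2
    refine ⟨m.toNat, ?_⟩
    rw [hm]
    have h4 : ((m.toNat : ℤ) : ℝ) = (m : ℝ) := by rw [Int.toNat_of_nonneg h3]
    rw [← h4, Int.cast_natCast]
  choose F hF using h1
  obtain ⟨T, hT, hT'⟩ := dickson F
  refine ⟨hT.toFinset, fun a => ?_⟩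
  obtain ⟨t, ht, hta⟩ := hT' a
  refine ⟨t, hT.mem_toFinset.2 ht, fun v hv => ?_⟩
  have := hta ⟨v, hv⟩
  rw [hF t ⟨v, hv⟩, hF a ⟨v, hv⟩]
  exact_mod_cast this

theorem minima_cone {l : (ι → ℝ) →ₗ[ℝ] ℝ} {s : Finset (ι → ℝ)} {a t : A}
    (h : ∀ v ∈ s, l (ρ t v) ≤ l (ρ a v)) {x : ι → ℝ}
    (hx : x ∈ Submodule.span ℝ≥0 (s : Set (ι → ℝ))) : l (ρ t x) ≤ l (ρ a x) := by
  obtain ⟨c, hc, rfl⟩ := exists_coeff hx
  rw [map_sum, map_sum, map_sum, map_sum]
  refine Finset.sum_le_sum fun v hv => ?_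
  rw [map_smul, map_smul, map_smul, map_smul, smul_eq_mul, smul_eq_mul]
  exact mul_le_mul_of_nonneg_left (h v hv) (hc v)

/-- The vector `x` minimizes the form `l` on its orbit. -/
def InDom (ρ : A →* Module.End ℝ (ι → ℝ)) (l : (ι → ℝ) →ₗ[ℝ] ℝ) (x : ι → ℝ) : Prop :=
  ∀ a, l x ≤ l (ρ a x)

theorem exists_finset {x : ι → ℝ} (hx : x ∈ Kp K) : ∃ s : Finset (ι → ℝ),
    (∀ v ∈ s, IsInt v ∧ v ∈ K) ∧ x ∈ Submodule.span ℝ≥0 (s : Set (ι → ℝ)) := by
  obtain ⟨s, hs, hx⟩ := Submodule.mem_span_finite_of_mem_span hx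
  exact ⟨s, fun v hv => ⟨(hs hv).2, (hs hv).1⟩, hx⟩

theorem exists_inDom (h : Good K ρ) {l : (ι → ℝ) →ₗ[ℝ] ℝ} (hl : IntForm l) (hlp : Pos K l)
    {x : ι → ℝ} (hx : x ∈ Kp K) : ∃ a, InDom ρ l (ρ a x) := by
  obtain ⟨s, hs, hx⟩ := exists_finset hx
  obtain ⟨T, hT⟩ := minima h hl hlp s hs
  have hTne : T.Nonempty := by
    obtain ⟨t, ht, -⟩ := hT 1
    exact ⟨t, ht⟩
  obtain ⟨t, -, ht⟩ := T.exists_min_image (fun t => l (ρ t x)) hTne
  refine ⟨t, fun b => ?_⟩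
  obtain ⟨t', ht', h2⟩ := hT (b * t)
  have h3 := minima_cone h2 hx
  rw [← Module.End.mul_apply, ← map_mul]
  exact (ht t' ht').trans h3

/-! ### Finiteness -/

theorem face_interior {s : Finset (ι → ℝ)} (hs : ∀ v ∈ s, v ∈ K) (c : (ι → ℝ) → ℝ)
    (hc : ∀ v ∈ s, 0 < c v) (h : ∑ v ∈ s, c v • v ∈ interior (K : Set (ι → ℝ))) :
    ∑ v ∈ s, v ∈ interior (K : Set (ι → ℝ)) := by
  set M := 1 + ∑ v ∈ s, c v with hM
  have hM0 : 0 < M := by
    have : 0 ≤ ∑ v ∈ s, c v := Finset.sum_nonneg fun v hv => (hc v hv).le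
    linarith
  have hcM : ∀ v ∈ s, c v ≤ M := fun v hv => by
    have := Finset.single_le_sum (f := c) (fun v hv => (hc v hv).le) hv
    linarith
  have e : ∑ v ∈ s, v = M⁻¹ • ∑ v ∈ s, c v • v + ∑ v ∈ s, (1 - c v / M) • v := by
    rw [Finset.smul_sum, ← Finset.sum_add_distrib]
    refine Finset.sum_congr rfl fun v _ => ?_
    rw [smul_smul, ← add_smul]
    have : M⁻¹ * c v + (1 - c v / M) = 1 := by field_simp; ring
    rw [this, one_smul]
  rw [e]
  refine add_interior (smul_interior (inv_pos.2 hM0) h) (sum_mem' K s _ id (fun v hv => ?_) hs)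
  rw [sub_nonneg, div_le_one hM0]
  exact hcM v hv

theorem finite_forms (R : ℝ) [DecidableEq ι] : {m : (ι → ℝ) →ₗ[ℝ] ℝ | IntForm m ∧
    ∀ i, |m (Pi.single i 1)| ≤ R}.Finite := by
  by_cases hR : 0 ≤ R
  · refine Set.Finite.of_injOn (f := fun (m : (ι → ℝ) →ₗ[ℝ] ℝ) (i : ι) => m (Pi.single i 1)) ?_ ?_
      (finite_int (ι := ι) R)
    · rintro m ⟨hm, hm'⟩
      refine ⟨fun i => hm _ (by simpa using IsInt.single i 1), ?_⟩
      rw [pi_norm_le_iff_of_nonneg hR]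
      exact hm'
    · rintro m - m' - hmm
      refine LinearMap.pi_ext' fun i => LinearMap.ext_ring ?_
      simpa using congrFun hmm i
  · rcases isEmpty_or_nonempty ι with hι | ⟨⟨i⟩⟩
    · refine Set.Subsingleton.finite fun m _ m' _ => LinearMap.ext fun x => ?_
      have : x = 0 := Subsingleton.elim _ _
      rw [this, map_zero, map_zero]
    · refine (Set.finite_empty).subset ?_
      rintro m ⟨-, hm⟩
      exact absurd ((abs_nonneg _).trans (hm i)) hR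

/-- Finiteness of the set of the group elements which are small at the generators of a cone
meeting the interior. -/
theorem claimB (h : Good K ρ) {l : (ι → ℝ) →ₗ[ℝ] ℝ} (hl : IntForm l) (hlp : Pos K l)
    (hts : ∀ a, l ∘ₗ ρ a = l → ρ a = 1) {s : Finset (ι → ℝ)} (hs : ∀ v ∈ s, IsInt v ∧ v ∈ K)
    (hint : ∑ v ∈ s, v ∈ interior (K : Set (ι → ℝ))) (B : ℝ) :
    {f : Module.End ℝ (ι → ℝ) | ∃ a, ρ a = f ∧ ∀ v ∈ s, l (f v) ≤ B}.Finite := by
  classical
  obtain ⟨δ, hδ, hball⟩ := Metric.isOpen_iff.1 isOpen_interior _ hint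
  set e := ∑ v ∈ s, v with he
  refine Set.Finite.of_injOn (f := fun (f : Module.End ℝ (ι → ℝ)) => l ∘ₗ f) ?_ ?_
    (finite_forms (ι := ι) (s.card * B / (δ / 2)))
  · rintro f ⟨a, rfl, hf⟩
    refine ⟨fun x hx => hl _ (h.int a x hx), fun i => ?_⟩
    have hle : l (ρ a e) ≤ s.card * B := by
      rw [he, map_sum, map_sum]
      refine (Finset.sum_le_sum hf).trans ?_
      rw [Finset.sum_const, nsmul_eq_mul]
    have hmem : ∀ c : ℝ, |c| = δ / 2 → e + c • (Pi.single i 1 : ι → ℝ) ∈ K := by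
      intro c hc
      refine interior_subset (hball ?_)
      rw [Metric.mem_ball, dist_eq_norm, add_sub_cancel_left, norm_smul, Pi.norm_single, norm_one,
        mul_one, Real.norm_eq_abs, hc]
      linarith
    have h1 := hlp.nonneg (h.pres a _ (hmem (δ / 2) (abs_of_pos (by linarith))))
    have h2 := hlp.nonneg (h.pres a _ (hmem (-(δ / 2)) (by
      rw [abs_neg]; exact abs_of_pos (by linarith))))
    rw [map_add, map_add, map_smul, map_smul, smul_eq_mul] at h1 h2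
    simp only [LinearMap.comp_apply]
    have hδ2 : 0 < δ / 2 := by linarith
    rw [abs_le, le_div_iff₀ hδ2, neg_le, ← sub_nonneg, ← sub_nonneg (a := (s.card : ℝ) * B)]
    constructor
    · rw [sub_nonneg, le_div_iff₀ hδ2]
      linarith
    · linarith
  · rintro f ⟨a, rfl, -⟩ g ⟨b, rfl, -⟩ hfg
    have h1 : l ∘ₗ ρ a = l ∘ₗ ρ b := hfg
    have h2 : l ∘ₗ ρ (a * b⁻¹) = l := by
      apply LinearMap.ext
      intro x
      rw [map_mul]
      have := LinearMap.congr_fun h1 (ρ b⁻¹ x)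
      simp only [LinearMap.comp_apply, Module.End.mul_apply] at this ⊢
      rw [this, apply_inv]
    have h3 := hts _ h2
    calc ρ a = ρ (a * b⁻¹) * ρ b := by rw [← map_mul]; congr 1; group
      _ = ρ b := by rw [h3, one_mul]

/-- Finiteness of the set of the group elements which move some point of the cone spanned by `s`,
in the interior of `K`, to the domain. -/
theorem claimC (h : Good K ρ) {l : (ι → ℝ) →ₗ[ℝ] ℝ} (hl : IntForm l) (hlp : Pos K l)
    (hts : ∀ a, l ∘ₗ ρ a = l → ρ a = 1) {s : Finset (ι → ℝ)} (hs : ∀ v ∈ s, IsInt v ∧ v ∈ K) :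
    {f : Module.End ℝ (ι → ℝ) | ∃ a, ρ a = f ∧ ∃ y ∈ Submodule.span ℝ≥0 (s : Set (ι → ℝ)),
      y ∈ interior (K : Set (ι → ℝ)) ∧ InDom ρ l (f y)}.Finite := by
  classical
  have hT : ∀ s' ∈ s.powerset, ∃ T : Finset A, ∀ a, ∃ t ∈ T, ∀ v ∈ s', l (ρ t v) ≤ l (ρ a v) :=
    fun s' hs' => minima h hl hlp s' fun v hv => hs v (Finset.mem_powerset.1 hs' hv)
  choose! T hT using hT
  set B : Finset (ι → ℝ) → ℝ := fun s' => ∑ t ∈ T s', ∑ v ∈ s', l (ρ t v) with hB
  refine Set.Finite.subset (Set.Finite.biUnion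
    (s := {s' : Finset (ι → ℝ) | s' ∈ s.powerset ∧ ∑ v ∈ s', v ∈ interior (K : Set (ι → ℝ))})
    (t := fun s' => {f : Module.End ℝ (ι → ℝ) | ∃ a, ρ a = f ∧ ∀ v ∈ s', l (f v) ≤ B s'})
    (Set.Finite.subset (Finset.finite_toSet s.powerset) fun s' hs' => hs'.1) fun s' hs' =>
      claimB h hl hlp hts (fun v hv => hs v (Finset.mem_powerset.1 hs'.1 hv)) hs'.2 _) ?_
  rintro f ⟨a, rfl, y, hy, hyK, hdom⟩
  obtain ⟨c, hc, hyc⟩ := exists_coeff hy
  set s' := s.filter (fun v => 0 < c v) with hs'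
  have hsub : s' ⊆ s := Finset.filter_subset _ _
  have hy' : y = ∑ v ∈ s', c v • v := by
    rw [hyc, hs', Finset.sum_filter]
    refine Finset.sum_congr rfl fun v _ => ?_
    split_ifs with h1
    · rfl
    · rw [le_antisymm (not_lt.1 h1) (hc v), zero_smul]
  have hpos : ∀ v ∈ s', 0 < c v := fun v hv => (Finset.mem_filter.1 hv).2
  have hint : ∑ v ∈ s', v ∈ interior (K : Set (ι → ℝ)) := by
    rw [hy'] at hyK
    exact face_interior (fun v hv => (hs v (hsub hv)).2) c hpos hyK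
  refine Set.mem_biUnion (show s' ∈ {s' : Finset (ι → ℝ) | s' ∈ s.powerset ∧
    ∑ v ∈ s', v ∈ interior (K : Set (ι → ℝ))} from ⟨Finset.mem_powerset.2 hsub, hint⟩) ?_
  refine ⟨a, rfl, ?_⟩
  obtain ⟨t, ht, hta⟩ := hT s' (Finset.mem_powerset.2 hsub) a
  have h1 : l (ρ a y) ≤ l (ρ t y) := by
    have := hdom (t * a⁻¹)
    rwa [map_mul, Module.End.mul_apply, inv_apply] at this
  have h2 : ∑ v ∈ s', c v * (l (ρ a v) - l (ρ t v)) = l (ρ a y) - l (ρ t y) := by
    rw [hy', map_sum, map_sum, map_sum, map_sum, ← Finset.sum_sub_distrib]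
    refine Finset.sum_congr rfl fun v _ => ?_
    rw [map_smul, map_smul, map_smul, map_smul, smul_eq_mul, smul_eq_mul, mul_sub]
  have h3 : ∀ v ∈ s', 0 ≤ c v * (l (ρ a v) - l (ρ t v)) := fun v hv =>
    mul_nonneg (hpos v hv).le (sub_nonneg.2 (hta v hv))
  have h4 : ∑ v ∈ s', c v * (l (ρ a v) - l (ρ t v)) = 0 :=
    le_antisymm (by rw [h2]; linarith) (Finset.sum_nonneg h3)
  intro v hv
  have h5 := (Finset.sum_eq_zero_iff_of_nonneg h3).1 h4 v hv
  have h6 : l (ρ a v) = l (ρ t v) := by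
    rcases mul_eq_zero.1 h5 with h6 | h6
    · exact absurd h6 (hpos v hv).ne'
    · linarith
  rw [h6]
  have hnn : ∀ t ∈ T s', ∀ v ∈ s', 0 ≤ l (ρ t v) := fun t _ v hv =>
    hlp.nonneg (h.pres t _ (hs v (hsub hv)).2)
  calc l (ρ t v) ≤ ∑ v ∈ s', l (ρ t v) :=
        Finset.single_le_sum (f := fun v => l (ρ t v)) (hnn t ht) hv
    _ ≤ B s' := Finset.single_le_sum (f := fun t => ∑ v ∈ s', l (ρ t v))
        (fun t ht => Finset.sum_nonneg (hnn t ht)) ht

/-- The Siegel property. -/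
theorem siegel (h : Good K ρ) {s : Finset (ι → ℝ)} (hs : ∀ v ∈ s, IsInt v ∧ v ∈ K) :
    {f : Module.End ℝ (ι → ℝ) | ∃ a, ρ a = f ∧ ∃ y ∈ Submodule.span ℝ≥0 (s : Set (ι → ℝ)),
      y ∈ interior (K : Set (ι → ℝ)) ∧ f y ∈ Submodule.span ℝ≥0 (s : Set (ι → ℝ))}.Finite := by
  obtain ⟨l, hl, hlp, hts⟩ := exists_ts h
  have hfin := claimC h hl hlp hts hs
  set E := {f : Module.End ℝ (ι → ℝ) | ∃ a, ρ a = f ∧ ∃ y ∈ Submodule.span ℝ≥0
    (s : Set (ι → ℝ)), y ∈ interior (K : Set (ι → ℝ)) ∧ InDom ρ l (f y)} with hE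
  refine Set.Finite.subset (Set.Finite.biUnion (s := E ×ˢ E)
    (t := fun p => {f : Module.End ℝ (ι → ℝ) | p.1 * f = p.2}) (hfin.prod hfin) ?_) ?_
  · rintro ⟨g, k⟩ ⟨⟨b, rfl, -⟩, -⟩
    refine Set.Subsingleton.finite fun f hf f' hf' => ?_
    have h1 : ρ b * f = ρ b * f' := by
      have e1 : ρ b * f = k := hf
      have e2 : ρ b * f' = k := hf'
      rw [e1, e2]
    apply LinearMap.ext
    intro x
    have h2 := LinearMap.congr_fun h1 x
    rw [Module.End.mul_apply, Module.End.mul_apply] at h2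
    have h3 := congrArg (ρ b⁻¹) h2
    rwa [inv_apply, inv_apply] at h3
  · rintro f ⟨a, rfl, y, hy, hyK, hay⟩
    have hyp : y ∈ Kp K := by
      refine Submodule.span_le.2 ?_ hy
      intro v hv
      exact Submodule.subset_span ⟨(hs v hv).2, (hs v hv).1⟩
    obtain ⟨b, hb⟩ := exists_inDom h hl hlp hyp
    have h1 : ρ b ∈ E := ⟨b, rfl, y, hy, hyK, hb⟩
    have h2 : ρ (b * a⁻¹) ∈ E := by
      refine ⟨b * a⁻¹, rfl, ρ a y, hay, h.interior a hyK, ?_⟩
      rwa [map_mul, Module.End.mul_apply, inv_apply]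
    refine Set.mem_biUnion (x := (ρ (b * a⁻¹), ρ b)) ⟨h2, h1⟩ ?_
    show ρ (b * a⁻¹) * ρ a = ρ b
    rw [← map_mul]
    congr 1
    group

end Pool.Agent.E8helper40.CC
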