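import Pool.Agent.E8helper40.CC.Act

/-!
# Finiteness of the set of conjugacy classes of a finite group of automorphisms
-/

set_option autoImplicit false
set_option linter.unusedSectionVars false

open scoped NNReal

namespace Pool.Agent.E8helper40.CC

theorem torsor {G A : Type} [Group G] [Fintype G] [Group A] (B : Subgroup A) (hN : B.Normal)
    (hc : ∀ a ∈ B, ∀ b ∈ B, a * b = b * a)
    (hdiv : ∀ n : ℕ, 0 < n → ∀ a ∈ B, ∃ b ∈ B, b ^ n = a) (h1 h2 : G →* A)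
    (hm : ∀ g, (h1 g)⁻¹ * h2 g ∈ B) :
    ∃ b ∈ B, ∀ g, (h1 g)⁻¹ * (b⁻¹ * h2 g * b) ∈ B ∧
      ((h1 g)⁻¹ * (b⁻¹ * h2 g * b)) ^ Fintype.card G = 1 := by
  let _ : CommGroup B := { (inferInstance : Group B) with
    mul_comm := fun a b => Subtype.ext (hc a a.2 b b.2) }
  let κ : A → (B →* B) := fun y => MonoidHom.mk' (fun x => ⟨y⁻¹ * x * y, by
      have := hN.conj_mem x x.2 y⁻¹
      rwa [inv_inv] at this⟩) (fun a b => Subtype.ext (by
      show y⁻¹ * ((a : A) * b) * y = (y⁻¹ * a * y) * (y⁻¹ * b * y)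
      group))
  let m : G → B := fun g => ⟨(h1 g)⁻¹ * h2 g, hm g⟩
  have hcoc : ∀ g g', m (g * g') = κ (h1 g') (m g) * m g' := by
    intro g g'
    apply Subtype.ext
    show (h1 (g * g'))⁻¹ * h2 (g * g') = ((h1 g')⁻¹ * ((h1 g)⁻¹ * h2 g) * h1 g') *
      ((h1 g')⁻¹ * h2 g')
    rw [map_mul, map_mul]
    group
  set s := ∏ g, m g with hs
  have hs' : ∀ g', s = κ (h1 g') s * (m g') ^ Fintype.card G := by
    intro g'
    have e1 : ∏ g, m (g * g') = ∏ g, m g := Fintype.prod_equiv (Equiv.mulRight g') _ _ fun _ => rfl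
    calc s = ∏ g, m (g * g') := e1.symm
      _ = ∏ g, (κ (h1 g') (m g) * m g') := Finset.prod_congr rfl fun g _ => hcoc g g'
      _ = (∏ g, κ (h1 g') (m g)) * (m g') ^ Fintype.card G := by
          rw [Finset.prod_mul_distrib, Finset.prod_const, Finset.card_univ]
      _ = κ (h1 g') s * (m g') ^ Fintype.card G := by rw [← map_prod]
  obtain ⟨b, hb, hbn⟩ := hdiv (Fintype.card G) Fintype.card_pos (s⁻¹ : B) (s⁻¹ : B).2
  set β : B := ⟨b, hb⟩ with hβ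
  have hβn : β ^ Fintype.card G = s⁻¹ := Subtype.ext hbn
  refine ⟨b, hb, fun g => ?_⟩
  have e : (h1 g)⁻¹ * (b⁻¹ * h2 g * b) = (((κ (h1 g) β)⁻¹ * m g * β : B) : A) := by
    show (h1 g)⁻¹ * (b⁻¹ * h2 g * b) = ((h1 g)⁻¹ * b * h1 g)⁻¹ * ((h1 g)⁻¹ * h2 g) * b
    group
  refine ⟨by rw [e]; exact Subtype.property _, ?_⟩
  rw [e, ← Subgroup.coe_pow, mul_pow, mul_pow, inv_pow, ← map_pow, hβn, map_inv, inv_inv,
    ← hs' g, mul_inv_cancel, Subgroup.coe_one]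

theorem reps {α β : Type*} (S : Set α) (f : α → β) (h : (f '' S).Finite) :
    ∃ R : Finset α, (∀ r ∈ R, r ∈ S) ∧ ∀ a ∈ S, ∃ r ∈ R, f r = f a := by
  classical
  have h1 : ∀ b ∈ f '' S, ∃ a, a ∈ S ∧ f a = b := fun b hb => hb
  choose g hg1 hg2 using h1
  have : Finite (f '' S) := h
  have hfin : (Set.range fun b : f '' S => g b b.2).Finite := Set.finite_range _
  refine ⟨hfin.toFinset, fun r hr => ?_, fun a ha => ?_⟩
  · obtain ⟨b, rfl⟩ := hfin.mem_toFinset.1 hr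
    exact hg1 b b.2
  · refine ⟨g (f a) ⟨a, ha, rfl⟩, hfin.mem_toFinset.2 ⟨⟨f a, a, ha, rfl⟩, rfl⟩, hg2 _ _⟩

namespace Cones

variable {X : Cones}

theorem act_inv_one (hX : X.IsProjective) {φ : X.Aut} (h : act hX φ = 1) : act hX φ⁻¹ = 1 := by
  have h3 : act hX (φ * φ⁻¹) = 1 := by rw [mul_inv_cancel, map_one]
  rwa [map_mul, h, one_mul] at h3

theorem finite_reps (hX : X.IsProjective) (G : Subgroup X.Aut) [Finite G]
    (hB : X.AbelianByFinite) {E : Set (Module.End ℝ (Fin X.ρ → ℝ))} (hE : E.Finite) :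
    ∃ R : Finset X.Aut, ∀ a, (∀ g ∈ G, act hX (a⁻¹ * g * a) ∈ E) →
      ∃ r ∈ R, ∃ z, (∀ g ∈ G, z * g = g * z) ∧ act hX a = act hX (z * r) := by
  classical
  have _ : Fintype G := Fintype.ofFinite G
  obtain ⟨B, hN, hc, hdiv, htor, htriv, F, hF⟩ := hB
  have htriv' : ∀ b ∈ B, act hX b = 1 := fun b hb => LinearMap.ext fun x => by
    rw [act_apply, Module.End.one_apply]
    exact htriv _ (B.inv_mem hb) x
  set S : Set X.Aut := {a | ∀ g ∈ G, act hX (a⁻¹ * g * a) ∈ E} with hS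
  -- the classes of the conjugates modulo the kernel
  obtain ⟨R1, hR1, hR1'⟩ := reps S (fun a (g : G) => act hX (a⁻¹ * g * a)) (by
    refine Set.Finite.subset (Set.Finite.pi (t := fun _ : G => E) fun _ => hE) ?_
    rintro _ ⟨a, ha, rfl⟩ g _
    exact ha g g.2)
  -- the classes modulo `B`
  obtain ⟨R2, hR2, hR2'⟩ := reps S (fun a (g : G) => (QuotientGroup.mk (a⁻¹ * g * a) : X.Aut ⧸ B))
    (by
      refine Set.Finite.subset (Set.Finite.biUnion (s := (R1 : Set X.Aut))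
        (t := fun r => Set.pi Set.univ fun g : G =>
          (fun f : X.Aut => (QuotientGroup.mk (r⁻¹ * g * r * f) : X.Aut ⧸ B)) '' (F : Set X.Aut))
        (Finset.finite_toSet R1) fun r _ => Set.Finite.pi fun g =>
          (Finset.finite_toSet F).image _) ?_
      rintro _ ⟨a, ha, rfl⟩
      obtain ⟨r, hr, hra⟩ := hR1' a ha
      refine Set.mem_biUnion (Finset.mem_coe.2 hr) fun g _ => ?_
      have h1 : act hX (r⁻¹ * g * r) = act hX (a⁻¹ * g * a) := congrFun hra g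
      have h2 : act hX ((r⁻¹ * g * r)⁻¹ * (a⁻¹ * g * a)) = 1 := by
        rw [map_mul, ← h1, ← map_mul, inv_mul_cancel, map_one]
      obtain ⟨f, hf, b, hb, hfb⟩ := hF ((r⁻¹ * g * r)⁻¹ * (a⁻¹ * g * a)) (fun x => by
        rw [pb_eq hX, act_inv_one hX h2, Module.End.one_apply])
      refine ⟨f, Finset.mem_coe.2 hf, ?_⟩
      show (QuotientGroup.mk (r⁻¹ * g * r * f) : X.Aut ⧸ B) = QuotientGroup.mk (a⁻¹ * g * a)
      rw [QuotientGroup.eq]
      have e : (r⁻¹ * (g : X.Aut) * r * f)⁻¹ * (a⁻¹ * g * a) = b := by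
        have : a⁻¹ * (g : X.Aut) * a = (r⁻¹ * g * r) * (f * b) := by
          rw [← hfb]; group
        rw [this]; group
      rw [e]
      exact hb)
  -- the classes up to conjugation with `B`
  set n := Fintype.card G with hn
  set Θ : Set (G → X.Aut) := ⋃ r ∈ (R2 : Set X.Aut), Set.pi Set.univ fun g : G =>
    (fun m : X.Aut => r⁻¹ * g * r * m) '' {m | m ∈ B ∧ m ^ n = 1} with hΘ
  have hΘfin : Θ.Finite := Set.Finite.biUnion (Finset.finite_toSet R2) fun r _ =>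
    Set.Finite.pi fun g => (htor n Fintype.card_pos).image _
  obtain ⟨R, -, hR'⟩ := reps {c : X.Aut | (fun g : G => c⁻¹ * g * c) ∈ Θ}
    (fun c (g : G) => c⁻¹ * g * c) (hΘfin.subset (by rintro _ ⟨c, hc, rfl⟩; exact hc))
  refine ⟨R, fun a ha => ?_⟩
  obtain ⟨r2, hr2, hr2'⟩ := hR2' a ha
  let cj : X.Aut → (G →* X.Aut) := fun c => MonoidHom.mk' (fun g => c⁻¹ * g * c) (fun g g' => by
    show c⁻¹ * ((g * g' : G) : X.Aut) * c = (c⁻¹ * g * c) * (c⁻¹ * g' * c)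
    rw [Subgroup.coe_mul]; group)
  obtain ⟨b, hb, hb'⟩ := torsor B hN hc hdiv (cj r2) (cj a) (fun g =>
    QuotientGroup.eq.1 (congrFun hr2' g))
  have hab : (fun g : G => (a * b)⁻¹ * (g : X.Aut) * (a * b)) ∈ Θ := by
    refine Set.mem_biUnion (Finset.mem_coe.2 hr2) fun g _ => ?_
    refine ⟨(r2⁻¹ * g * r2)⁻¹ * (b⁻¹ * (a⁻¹ * g * a) * b), ⟨(hb' g).1, (hb' g).2⟩, ?_⟩
    show r2⁻¹ * (g : X.Aut) * r2 * ((r2⁻¹ * g * r2)⁻¹ * (b⁻¹ * (a⁻¹ * g * a) * b)) =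
      (a * b)⁻¹ * g * (a * b)
    group
  obtain ⟨r, hr, hrab⟩ := hR' (a * b) hab
  refine ⟨r, hr, a * b * r⁻¹, fun g hg => ?_, ?_⟩
  · have h1 : r⁻¹ * g * r = (a * b)⁻¹ * g * (a * b) := congrFun hrab ⟨g, hg⟩
    calc a * b * r⁻¹ * g = a * b * (r⁻¹ * g * r) * r⁻¹ := by group
      _ = a * b * ((a * b)⁻¹ * g * (a * b)) * r⁻¹ := by rw [h1]
      _ = g * (a * b * r⁻¹) := by group
  · have e : a * b * r⁻¹ * r = a * b := by group
    rw [e, map_mul, htriv' b hb, mul_one]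

end Cones

end Pool.Agent.E8helper40.CC
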